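import Pool.Agent.H371.LG.Defs

set_option autoImplicit false

namespace Pool.Agent.H371.LG

open Pool.Agent.H371.GT

namespace A1x

variable {g n : ℕ}

/-- a continuous automorphism as a continuous homomorphism -/
def ch (φ : MulAut (Pi g n)) (h : Continuous φ) : Pi g n →ₜ* Pi g n := ⟨φ.toMonoidHom, h⟩

theorem aut_ppow {φ : MulAut (Pi g n)} (h : Continuous φ) (x : Pi g n) (l : Zhat) :
    φ (ppow x l) = ppow (φ x) l := map_ppow (ch φ h) x l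

theorem inv_cont {φ : MulAut (Pi g n)} (h : Continuous φ) :
    Continuous (φ⁻¹ : MulAut (Pi g n)) := by
  have h1 : Continuous φ.toEquiv := h
  exact (Continuous.homeoOfEquivCompactToT2 (f := φ.toEquiv) h1).symm.continuous

end A1x

theorem autLac_mul {g n : ℕ} {φ ψ : MulAut (Pi g n)} (hφ : φ ∈ AutLac g n) (hψ : ψ ∈ AutLac g n) :
    φ * ψ ∈ AutLac g n := by
  obtain ⟨cφ, l, τ, hl⟩ := hφ
  obtain ⟨cψ, m, ρ, hm⟩ := hψ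
  refine ⟨cφ.comp cψ, l * m, τ * ρ, fun j => ?_⟩
  obtain ⟨a, ha⟩ := hm j
  obtain ⟨b, hb⟩ := hl (ρ j)
  refine ⟨φ a * b, ?_⟩
  rw [MulAut.mul_apply, ha, map_mul, map_mul, map_inv, A1x.aut_ppow cφ, hb, ppow_conj, ← GT.ppow_mul,
    Equiv.Perm.mul_apply, Units.val_mul]
  group

theorem autLac_inv {g n : ℕ} {φ : MulAut (Pi g n)} (hφ : φ ∈ AutLac g n) :
    φ⁻¹ ∈ AutLac g n := by
  obtain ⟨cφ, l, τ, hl⟩ := hφ
  have cψ := A1x.inv_cont cφ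
  refine ⟨cψ, l⁻¹, τ⁻¹, fun i => ?_⟩
  obtain ⟨a, ha⟩ := hl (τ⁻¹ i)
  have hτ : τ (τ⁻¹ i) = i := τ.apply_symm_apply i
  rw [hτ] at ha
  have h1 : loop (τ⁻¹ i) = φ⁻¹ a * ppow (φ⁻¹ (loop i)) (l : Zhat) * (φ⁻¹ a)⁻¹ := by
    rw [← A1x.aut_ppow cψ, ← map_inv, ← map_mul, ← map_mul, ← ha]
    exact (φ.symm_apply_apply _).symm
  have h2 : ppow (loop (τ⁻¹ i)) ((l⁻¹ : Zhatˣ) : Zhat) = φ⁻¹ a * φ⁻¹ (loop i) * (φ⁻¹ a)⁻¹ := by
    rw [h1, ppow_conj, ← GT.ppow_mul, Units.mul_inv, GT.ppow_one]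
  refine ⟨(φ⁻¹ a)⁻¹, ?_⟩
  rw [h2]
  group

end Pool.Agent.H371.LG
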