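import Pool.Agent.H371.LG.A1

set_option autoImplicit false

namespace Pool.Agent.H371.LG

open Pool.Agent.H371.GT

theorem A2x_map_ppow {g n : ℕ} {φ : MulAut (Pi g n)} (hφ : Continuous φ) (a : Pi g n) (l : Zhat) :
    φ (ppow a l) = ppow (φ a) l := by
  have h := map_ppow (⟨φ.toMonoidHom, hφ⟩ : Pi g n →ₜ* Pi g n) a l
  exact h

theorem A2x_lac_mul {g n : ℕ} {φ ψ : MulAut (Pi g n)} {l m : Zhat} {ρ τ : Equiv.Perm (Fin n)}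
    (hφ : Continuous φ) (h1 : LacAt l ρ φ) (h2 : LacAt m τ ψ) :
    LacAt (l * m) (ρ * τ) (φ * ψ) := by
  intro j
  obtain ⟨b, hb⟩ := h2 j
  obtain ⟨a, ha⟩ := h1 (τ j)
  refine ⟨φ b * a, ?_⟩
  rw [MulAut.mul_apply, hb, map_mul, map_mul, map_inv, A2x_map_ppow hφ, ha, ppow_conj, GT.ppow_mul,
    Equiv.Perm.mul_apply]
  group

theorem A2x_lac_inv {g n : ℕ} {φ : MulAut (Pi g n)} {l : Zhatˣ} {ρ : Equiv.Perm (Fin n)}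
    (hφ : Continuous (φ⁻¹ : MulAut (Pi g n))) (h1 : LacAt (l : Zhat) ρ φ) :
    LacAt ((l⁻¹ : Zhatˣ) : Zhat) ρ⁻¹ φ⁻¹ := by
  intro j
  obtain ⟨a, ha⟩ := h1 (ρ⁻¹ j)
  have hj : ρ (ρ⁻¹ j) = j := Equiv.apply_symm_apply ρ j
  rw [hj] at ha
  have h3 : φ⁻¹ (φ (loop (ρ⁻¹ j))) = loop (ρ⁻¹ j) := MulAut.inv_apply_self _ φ _
  rw [ha, map_mul, map_mul, map_inv, A2x_map_ppow hφ] at h3
  have h4 : ppow (φ⁻¹ (loop j)) (l : Zhat) = (φ⁻¹ a)⁻¹ * loop (ρ⁻¹ j) * ((φ⁻¹ a)⁻¹)⁻¹ := by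
    rw [← h3]
    group
  have h5 : φ⁻¹ (loop j) = ppow (ppow (φ⁻¹ (loop j)) (l : Zhat)) ((l⁻¹ : Zhatˣ) : Zhat) := by
    rw [← GT.ppow_mul, Units.mul_inv, GT.ppow_one]
  refine ⟨(φ⁻¹ a)⁻¹, ?_⟩
  rw [h5, h4, ppow_conj]

theorem A2x_map_mul {g n : ℕ} (D : Subgroup (Pi g n)) (d v : MulAut (Pi g n)) :
    D.map (d * v).toMonoidHom = (D.map v.toMonoidHom).map d.toMonoidHom := by
  rw [Subgroup.map_map]
  rfl

theorem clos_mul {g n : ℕ} {D : Subgroup (Pi g n)} {s v : MulAut (Pi g n)}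
    (hs : s ∈ Clos (Stab D)) (hv : v ∈ Stab D) : s * v ∈ Clos (Stab D) := by
  refine ⟨autLac_mul hs.1 hv.1, fun N => ?_⟩
  obtain ⟨d, hd, h⟩ := hs.2 N
  refine ⟨d * v, ⟨autLac_mul hd.1 hv.1, ?_⟩, fun u => ?_⟩
  · rw [A2x_map_mul, hv.2, hd.2]
  · rw [MulAut.mul_apply, MulAut.mul_apply]
    exact h (v u)

/-- the preimage of an open normal subgroup under a continuous automorphism -/
def A2xComap {g n : ℕ} (φ : MulAut (Pi g n)) (hφ : Continuous φ) (N : OpenNormalSubgroup (Pi g n)) :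
    OpenNormalSubgroup (Pi g n) :=
  { toOpenSubgroup := ⟨N.toSubgroup.comap φ.toMonoidHom, N.isOpen'.preimage hφ⟩
    isNormal' := by
      have : N.toSubgroup.Normal := N.isNormal'
      exact Subgroup.normal_comap φ.toMonoidHom }

theorem tplus_conj {g n : ℕ} {D : Subgroup (Pi g n)} {φ ψ : MulAut (Pi g n)}
    (hφ : φ ∈ AutLac g n) (hψ : ψ ∈ TPlus D) :
    φ * ψ * φ⁻¹ ∈ TPlus (D.map φ.toMonoidHom) := by
  obtain ⟨w, s, hs1, hs2, rfl⟩ := hψ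
  have hφi := autLac_inv hφ
  refine ⟨φ w, φ * s * φ⁻¹, ⟨autLac_mul (autLac_mul hφ hs1.1) hφi, fun N => ?_⟩, ?_, ?_⟩
  · obtain ⟨d, hd, h⟩ := hs1.2 (A2xComap φ hφ.1 N)
    refine ⟨φ * d * φ⁻¹, ⟨autLac_mul (autLac_mul hφ hd.1) hφi, ?_⟩, fun u => ?_⟩
    · rw [← A2x_map_mul, inv_mul_cancel_right, A2x_map_mul, hd.2]
    · have h1 : φ ((d (φ⁻¹ u))⁻¹ * s (φ⁻¹ u)) ∈ N.toSubgroup := h (φ⁻¹ u)
      rw [map_mul, map_inv] at h1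
      exact h1
  · obtain ⟨hsc, τ, hτ⟩ := hs2
    obtain ⟨m, ρ, hρ⟩ := hφ.2
    refine ⟨(autLac_mul (autLac_mul hφ hs1.1) hφi).1, ρ * τ * ρ⁻¹, ?_⟩
    have h1 := A2x_lac_mul (autLac_mul hφ hs1.1).1 (A2x_lac_mul hφ.1 hρ hτ) (A2x_lac_inv hφi.1 hρ)
    rw [mul_one, Units.mul_inv] at h1
    exact h1
  · ext u
    show φ (w * s (φ⁻¹ u) * w⁻¹) = φ w * φ (s (φ⁻¹ u)) * (φ w)⁻¹
    rw [map_mul, map_mul, map_inv]

end Pool.Agent.H371.LG
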