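import Pool.Agent.H371.LG.Defs

set_option autoImplicit false

namespace Pool.Agent.H371.LG

open Pool.Agent.H371.GT

namespace D1x

/-- a partial injection of a finite set extends to a permutation -/
theorem extend {X : Type} [Finite X] (R : X → X → Prop) (h1 : ∀ x y y', R x y → R x y' → y = y')
    (h2 : ∀ x x' y, R x y → R x' y → x = x') : ∃ σ : Equiv.Perm X, ∀ x y, R x y → σ x = y := by
  classical
  cases nonempty_fintype X
  have hex : ∀ x, ∃ y, (∃ z, R x z) → R x y := by
    intro x
    by_cases h : ∃ z, R x z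
    · obtain ⟨z, hz⟩ := h
      exact ⟨z, fun _ => hz⟩
    · exact ⟨x, fun h' => absurd h' h⟩
  choose f hf using hex
  obtain ⟨g, hg⟩ := Set.MapsTo.exists_equiv_extend_of_card_eq (α := X) (β := X)
    (t := (Finset.univ : Finset X)) (by simp) (s := {x | ∃ z, R x z}) (f := f)
    (fun x _ => by simp) (fun x hx x' hx' e => h2 x x' (f x) (hf x hx) (by
      rw [e]
      exact hf x' hx'))
  refine ⟨g.trans (Equiv.subtypeUnivEquiv fun x => Finset.mem_univ x), fun x y hxy => ?_⟩
  have h3 := hg x ⟨y, hxy⟩
  have h4 : f x = y := h1 x _ _ (hf x ⟨y, hxy⟩) hxy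
  rw [← h4, ← h3]
  rfl

/-- a product of permutations which moves along a path -/
theorem path {X : Type} (l : List (Equiv.Perm X)) : ∀ pos : ℕ → X,
    (∀ i (hi : i < l.length), l[i] (pos (i + 1)) = pos i) → l.prod (pos l.length) = pos 0 := by
  induction l with
  | nil =>
    intro pos _
    rfl
  | cons g l ih =>
    intro pos h
    rw [List.prod_cons, Equiv.Perm.mul_apply, List.length_cons]
    have h1 := ih (fun i => pos (i + 1)) (fun i hi => by
      have := h (i + 1) (by rw [List.length_cons]; omega)
      rwa [List.getElem_cons_succ] at this)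
    have h2 : l.prod (pos (l.length + 1)) = pos 1 := h1
    rw [h2]
    exact h 0 (by rw [List.length_cons]; omega)

/-- free groups are residually finite -/
theorem resfin {α : Type} (w : FreeGroup α) (hw : w ≠ 1) :
    ∃ (n : ℕ) (f : FreeGroup α →* Equiv.Perm (Fin (n + 1))), f w ≠ 1 := by
  classical
  obtain ⟨L, hL⟩ : ∃ L, L = w.toWord := ⟨_, rfl⟩
  have hred : FreeGroup.IsReduced L := hL ▸ FreeGroup.isReduced_toWord
  have hmk : FreeGroup.mk L = w := by rw [hL, FreeGroup.mk_toWord]
  have hn : 0 < L.length := by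
    rw [List.length_pos_iff, hL]
    intro h
    exact hw (FreeGroup.toWord_eq_nil_iff.1 h)
  obtain ⟨n, hnd⟩ : ∃ n, n = L.length := ⟨_, rfl⟩
  have hadj : ∀ i (hi : i + 1 < L.length), L[i].1 = L[i + 1].1 → L[i].2 = L[i + 1].2 := by
    have := List.isChain_iff_getElem.1 hred
    intro i hi h
    exact this i hi h
  have hσ : ∀ a : α, ∃ σ : Equiv.Perm (Fin (n + 1)), ∀ x y : Fin (n + 1),
      (∃ (i : ℕ) (hi : i < L.length), L[i].1 = a ∧
        ((L[i].2 = true ∧ x.val = i + 1 ∧ y.val = i) ∨
          (L[i].2 = false ∧ x.val = i ∧ y.val = i + 1))) → σ x = y := by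
    intro a
    refine extend _ ?_ ?_
    · rintro x y y' ⟨i, hi, e, h | h⟩ ⟨i', hi', e', h' | h'⟩
      · obtain rfl : i = i' := by omega
        exact Fin.ext (by omega)
      · obtain rfl : i' = i + 1 := by omega
        have := hadj i hi' (e.trans e'.symm)
        rw [h.1, h'.1] at this
        exact absurd this (by decide)
      · obtain rfl : i = i' + 1 := by omega
        have := hadj i' hi (e'.trans e.symm)
        rw [h.1, h'.1] at this
        exact absurd this (by decide)
      · obtain rfl : i = i' := by omega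
        exact Fin.ext (by omega)
    · rintro x x' y ⟨i, hi, e, h | h⟩ ⟨i', hi', e', h' | h'⟩
      · obtain rfl : i = i' := by omega
        exact Fin.ext (by omega)
      · obtain rfl : i = i' + 1 := by omega
        have := hadj i' hi (e'.trans e.symm)
        rw [h.1, h'.1] at this
        exact absurd this (by decide)
      · obtain rfl : i' = i + 1 := by omega
        have := hadj i hi' (e.trans e'.symm)
        rw [h.1, h'.1] at this
        exact absurd this (by decide)
      · obtain rfl : i = i' := by omega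
        exact Fin.ext (by omega)
  choose σ hσ using hσ
  refine ⟨n, FreeGroup.lift σ, fun h => ?_⟩
  obtain ⟨pos, hpos⟩ : ∃ pos : ℕ → Fin (n + 1), ∀ i, i ≤ n → (pos i).val = i :=
    ⟨fun i => if hi : i ≤ n then ⟨i, by omega⟩ else 0, fun i hi => by simp [hi]⟩
  rw [← hmk, FreeGroup.lift_mk] at h
  have h1 := path (L.map fun x => cond x.2 (σ x.1) (σ x.1)⁻¹) pos (fun i hi => by
    rw [List.length_map] at hi
    rw [List.getElem_map]
    have p1 := hpos i (by omega)
    have p2 := hpos (i + 1) (by omega)
    cases hb : L[i].2 with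
    | true =>
      rw [cond_true]
      exact hσ _ _ _ ⟨i, hi, rfl, Or.inl ⟨hb, p2, p1⟩⟩
    | false =>
      rw [cond_false, Equiv.Perm.inv_eq_iff_eq]
      exact (hσ _ _ _ ⟨i, hi, rfl, Or.inr ⟨hb, p1, p2⟩⟩).symm)
  rw [h, List.length_map, Equiv.Perm.one_apply] at h1
  have p1 := hpos 0 (by omega)
  have p2 := hpos L.length (by omega)
  rw [h1] at p2
  omega

end D1x

/-- free groups are residually finite: the map to the profinite completion is injective -/
theorem eta_inj : Function.Injective (eta (FreeGroup (Fin 2))) := by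
  rw [injective_iff_map_eq_one]
  intro w hw
  by_contra hne
  obtain ⟨n, f, hf⟩ := D1x.resfin w hne
  obtain ⟨ρ, hρ, -⟩ := exists_lift_finite f
  apply hf
  rw [← hρ, hw, map_one]

end Pool.Agent.H371.LG
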