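import Pool.Agent.H371.LG.Defs

set_option autoImplicit false

namespace Pool.Agent.H371.LG

open Pool.Agent.H371.GT

namespace D4x

/-- the exponent sum of the generator `i` -/
def A (i : Fin 2) : FreeGroup (Fin 2) →* Multiplicative ℤ :=
  FreeGroup.lift fun j => Multiplicative.ofAdd (if j = i then 1 else 0)

theorem A_of (i j : Fin 2) :
    A i (FreeGroup.of j) = Multiplicative.ofAdd (if j = i then (1 : ℤ) else 0) := by
  unfold A
  rw [FreeGroup.lift_apply_of]

/-- the exponent sums modulo `N` -/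
theorem key (i j : Fin 2) (w : FreeGroup (Fin 2)) (l : Zhat) (c : F2)
    (hw : eta (FreeGroup (Fin 2)) w = c * ppow (eta (FreeGroup (Fin 2)) (FreeGroup.of j)) l * c⁻¹)
    (N : ℕ+) : ((Multiplicative.toAdd (A i w) : ℤ) : ZMod N) =
      (res l N : ZMod N) * (if j = i then 1 else 0) := by
  have : NeZero (N : ℕ) := ⟨N.ne_zero⟩
  let f : FreeGroup (Fin 2) →* Multiplicative (ZMod N) :=
    (AddMonoidHom.toMultiplicative (Int.castAddHom (ZMod N))).comp (A i)
  obtain ⟨ρ, hρ, hρo⟩ := exists_lift_finite f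
  have hN : ∀ x : Multiplicative (ZMod N), x ^ (N : ℕ) = 1 := by
    intro x
    apply Multiplicative.toAdd.injective
    rw [toAdd_pow, toAdd_one, nsmul_eq_mul, ZMod.natCast_self, zero_mul]
  have h1 : f w = f (FreeGroup.of j) ^ res l N := by
    rw [← hρ, hw, map_mul, map_mul, map_inv, mul_inv_cancel_comm,
      fin_ppow ρ hρo _ l N (hN _), hρ]
  have h2 := congrArg Multiplicative.toAdd h1
  rw [toAdd_pow] at h2
  have h3 : ∀ u, Multiplicative.toAdd (f u) = ((Multiplicative.toAdd (A i u) : ℤ) : ZMod N) :=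
    fun u => rfl
  rw [h3, h3, A_of, toAdd_ofAdd, nsmul_eq_mul] at h2
  rw [h2]
  split_ifs <;> simp

theorem eq_of_mod {a b : ℤ} (h : ∀ N : ℕ+, (a : ZMod N) = (b : ZMod N)) : a = b := by
  have h1 := h ⟨(a - b).natAbs + 1, Nat.succ_pos _⟩
  rw [ZMod.intCast_eq_intCast_iff_dvd_sub] at h1
  have h2 := Int.natAbs_dvd_natAbs.2 h1
  simp only [PNat.mk_coe, Int.natAbs_natCast] at h2
  have h3 : (b - a).natAbs = (a - b).natAbs := by
    rw [← Int.natAbs_neg, neg_sub]
  rw [h3] at h2
  by_contra hab
  have h4 : 0 < (a - b).natAbs := Int.natAbs_pos.2 (sub_ne_zero.2 hab)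
  have := Nat.le_of_dvd h4 h2
  omega

/-- the abelianization is determined by the exponent sums -/
theorem ab_eq (w : FreeGroup (Fin 2)) : Abelianization.of w =
    Abelianization.of (FreeGroup.of (0 : Fin 2)) ^ (Multiplicative.toAdd (A 0 w)) *
      Abelianization.of (FreeGroup.of (1 : Fin 2)) ^ (Multiplicative.toAdd (A 1 w)) := by
  have h : (Abelianization.of : FreeGroup (Fin 2) →* Abelianization (FreeGroup (Fin 2))) =
      ((zpowersHom (Abelianization (FreeGroup (Fin 2)))
        (Abelianization.of (FreeGroup.of (0 : Fin 2)))).comp (A 0)) *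
      ((zpowersHom (Abelianization (FreeGroup (Fin 2)))
        (Abelianization.of (FreeGroup.of (1 : Fin 2)))).comp (A 1)) := by
    apply FreeGroup.ext_hom
    intro i
    rw [MonoidHom.mul_apply, MonoidHom.comp_apply, MonoidHom.comp_apply, zpowersHom_apply,
      zpowersHom_apply, A_of, A_of]
    fin_cases i <;> simp
  have h2 := DFunLike.congr_fun h w
  rw [MonoidHom.mul_apply, MonoidHom.comp_apply, MonoidHom.comp_apply, zpowersHom_apply,
      zpowersHom_apply] at h2
  exact h2

end D4x

/-- a surjective endomorphism of the discrete free group of rank two mapping the generators to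
conjugates of `X ^ l`, `Y ^ l` in the profinite completion, where `l = 1` modulo three, acts trivially
on the abelianization -/
theorem ab_triv (e : FreeGroup (Fin 2) →* FreeGroup (Fin 2)) (he : Function.Surjective e)
    (l : Zhatˣ) (hl : res (l : Zhat) 3 = 1) (a b : F2)
    (h0 : eta (FreeGroup (Fin 2)) (e (FreeGroup.of 0)) = a * ppow X (l : Zhat) * a⁻¹)
    (h1 : eta (FreeGroup (Fin 2)) (e (FreeGroup.of 1)) = b * ppow Y (l : Zhat) * b⁻¹) (i : Fin 2) :
    Abelianization.of (e (FreeGroup.of i)) = Abelianization.of (FreeGroup.of i) := by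
  have k0 := fun i N => D4x.key i 0 (e (FreeGroup.of 0)) l a h0 N
  have k1 := fun i N => D4x.key i 1 (e (FreeGroup.of 1)) l b h1 N
  obtain ⟨k, hk⟩ : ∃ k : ℤ, k = Multiplicative.toAdd (D4x.A 0 (e (FreeGroup.of 0))) := ⟨_, rfl⟩
  have e1 : Multiplicative.toAdd (D4x.A 1 (e (FreeGroup.of 0))) = 0 := by
    refine D4x.eq_of_mod fun N => ?_
    rw [k0 1 N]
    simp
  have e2 : Multiplicative.toAdd (D4x.A 0 (e (FreeGroup.of 1))) = 0 := by
    refine D4x.eq_of_mod fun N => ?_
    rw [k1 0 N]
    simp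
  have e3 : Multiplicative.toAdd (D4x.A 1 (e (FreeGroup.of 1))) = k := by
    refine D4x.eq_of_mod fun N => ?_
    rw [k1 1 N, hk, k0 0 N]
    simp
  have e4 : ∀ u, Multiplicative.toAdd (D4x.A 0 (e u)) = k * Multiplicative.toAdd (D4x.A 0 u) := by
    intro u
    have h : (D4x.A 0).comp e = (zpowGroupHom k).comp (D4x.A 0) := by
      apply FreeGroup.ext_hom
      intro j
      apply Multiplicative.toAdd.injective
      rw [MonoidHom.comp_apply, MonoidHom.comp_apply, zpowGroupHom_apply, toAdd_zpow, D4x.A_of,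
        toAdd_ofAdd]
      fin_cases j
      · change Multiplicative.toAdd (D4x.A 0 (e (FreeGroup.of 0))) = _
        rw [← hk]
        simp
      · change Multiplicative.toAdd (D4x.A 0 (e (FreeGroup.of 1))) = _
        rw [e2]
        simp
    have h2 := congrArg Multiplicative.toAdd (DFunLike.congr_fun h u)
    rw [MonoidHom.comp_apply, MonoidHom.comp_apply, zpowGroupHom_apply, toAdd_zpow] at h2
    rw [h2, smul_eq_mul]
  have hk1 : k = 1 := by
    obtain ⟨u, hu⟩ := he (FreeGroup.of 0)
    have h2 := e4 u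
    rw [hu, D4x.A_of, toAdd_ofAdd, if_pos rfl] at h2
    have h3 : IsUnit k := IsUnit.of_mul_eq_one _ h2.symm
    rcases Int.isUnit_iff.1 h3 with h4 | h4
    · exact h4
    · exfalso
      have h5 := k0 0 3
      rw [← hk, h4, hl] at h5
      revert h5
      decide
  rw [D4x.ab_eq (e (FreeGroup.of i)), D4x.ab_eq (FreeGroup.of i)]
  fin_cases i
  · change Abelianization.of (FreeGroup.of (0 : Fin 2)) ^
        (Multiplicative.toAdd (D4x.A 0 (e (FreeGroup.of 0)))) *
        Abelianization.of (FreeGroup.of (1 : Fin 2)) ^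
        (Multiplicative.toAdd (D4x.A 1 (e (FreeGroup.of 0)))) =
      Abelianization.of (FreeGroup.of (0 : Fin 2)) ^
        (Multiplicative.toAdd (D4x.A 0 (FreeGroup.of 0))) *
        Abelianization.of (FreeGroup.of (1 : Fin 2)) ^
        (Multiplicative.toAdd (D4x.A 1 (FreeGroup.of 0)))
    rw [← hk, hk1, e1, D4x.A_of, D4x.A_of]
    simp
  · change Abelianization.of (FreeGroup.of (0 : Fin 2)) ^
        (Multiplicative.toAdd (D4x.A 0 (e (FreeGroup.of 1)))) *
        Abelianization.of (FreeGroup.of (1 : Fin 2)) ^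
        (Multiplicative.toAdd (D4x.A 1 (e (FreeGroup.of 1)))) =
      Abelianization.of (FreeGroup.of (0 : Fin 2)) ^
        (Multiplicative.toAdd (D4x.A 0 (FreeGroup.of 1))) *
        Abelianization.of (FreeGroup.of (1 : Fin 2)) ^
        (Multiplicative.toAdd (D4x.A 1 (FreeGroup.of 1)))
    rw [e2, e3, hk1, D4x.A_of, D4x.A_of]
    simp

end Pool.Agent.H371.LG
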