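import Mathlib
import Pool.Agent.H371.GT.Lib

/-!
Profinite loop groups of type `(g, n)`, `n ≥ 1`, their inertia-preserving automorphisms and
the closure of the stabilizer of a discretification.
-/

set_option autoImplicit false

namespace Pool.Agent.H371.LG

open Pool.Agent.H371.GT

/-- the generators `x_i`, `y_i` (`i < g`) and `l_j` (`j < n`) -/
abbrev Gen (g n : ℕ) : Type := (Fin g ⊕ Fin g) ⊕ Fin n

/-- the relator `[x_0, y_0] ... [x_{g-1}, y_{g-1}] l_0 ... l_{n-1}` -/
def relator (g n : ℕ) : FreeGroup (Gen g n) :=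
  (List.ofFn fun i : Fin g =>
    (FreeGroup.of (Sum.inl (Sum.inl i)) : FreeGroup (Gen g n)) *
      FreeGroup.of (Sum.inl (Sum.inr i)) * (FreeGroup.of (Sum.inl (Sum.inl i)))⁻¹ *
      (FreeGroup.of (Sum.inl (Sum.inr i)))⁻¹).prod *
  (List.ofFn fun j : Fin n => (FreeGroup.of (Sum.inr j) : FreeGroup (Gen g n))).prod

/-- the discrete group `π_{g,n}` -/
abbrev Srf (g n : ℕ) : Type := PresentedGroup ({relator g n} : Set (FreeGroup (Gen g n)))

/-- the profinite group: the profinite completion of `π_{g,n}` -/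
abbrev Pi (g n : ℕ) : Type := PC (Srf g n)

variable {g n : ℕ}

/-- the element `l_j` of the profinite group -/
def loop (j : Fin n) : Pi g n := eta (Srf g n) (PresentedGroup.of (Sum.inr j))

/-- the standard discretification: the image of `π_{g,n}` -/
def std (g n : ℕ) : Subgroup (Pi g n) := (eta (Srf g n)).range

/-- `φ (l_j)` is conjugate to `l_{τ j} ^ l` for all `j` -/
def LacAt (l : Zhat) (τ : Equiv.Perm (Fin n)) (φ : MulAut (Pi g n)) : Prop :=
  ∀ j, ∃ a, φ (loop j) = a * ppow (loop (τ j)) l * a⁻¹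

/-- `Aut_lac(π)`: the continuous automorphisms which permute the conjugacy classes of the `l_j` up to
a power with exponent `l`, a unit of the ring of profinite integers -/
def AutLac (g n : ℕ) : Set (MulAut (Pi g n)) :=
  {φ | Continuous φ ∧ ∃ (l : Zhatˣ) (τ : Equiv.Perm (Fin n)), LacAt (l : Zhat) τ φ}

/-- the elements of `Aut_lac(π)` with cyclotomic character `1` (for `n ≥ 1`) -/
def AutLacOne (g n : ℕ) : Set (MulAut (Pi g n)) :=
  {φ | Continuous φ ∧ ∃ τ : Equiv.Perm (Fin n), LacAt 1 τ φ}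

/-- the stabilizer of the abstract subgroup `D` in `Aut_lac(π)` -/
def Stab (D : Subgroup (Pi g n)) : Set (MulAut (Pi g n)) :=
  {φ | φ ∈ AutLac g n ∧ D.map φ.toMonoidHom = D}

/-- the closure of a set of automorphisms in `Aut_lac(π)`: the elements which agree modulo each open
normal subgroup with an element of the set -/
def Clos (S : Set (MulAut (Pi g n))) : Set (MulAut (Pi g n)) :=
  {φ | φ ∈ AutLac g n ∧ ∀ N : OpenNormalSubgroup (Pi g n), ∃ d ∈ S, ∀ u, (d u)⁻¹ * φ u ∈ N.toSubgroup}

/-- the preimage in `Aut_lac(π)` of the subgroup `T⁺(D)` of `T(π) = Aut_lac(π) / Inn(π)`: the products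
of an inner automorphism and an element with cyclotomic character `1` of the closure of the stabilizer
of `D` -/
def TPlus (D : Subgroup (Pi g n)) : Set (MulAut (Pi g n)) :=
  {φ | ∃ (w : Pi g n) (s : MulAut (Pi g n)), s ∈ Clos (Stab D) ∧ s ∈ AutLacOne g n ∧
    φ = MulAut.conj w * s}

/-- a discretification: the image of the standard one under an element of `Aut_lac(π)` -/
def IsDisc (D : Subgroup (Pi g n)) : Prop :=
  ∃ φ ∈ AutLac g n, D = (std g n).map φ.toMonoidHom

/-- the class sum of `x` in the group algebra -/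
noncomputable def cs (p : ℕ) {G : Type} [Group G] [Finite G] (x : G) : MonoidAlgebra (ZMod p) G :=
  ∑ᶠ y ∈ {y : G | IsConj x y}, MonoidAlgebra.single y 1

/-- the map from the profinite loop group of type `(0, 4)` to the free profinite group on `X, Y` which
kills the loop number `2` -/
def IsProj (p : Pi 0 4 →ₜ* F2) : Prop :=
  p (loop 0) = X ∧ p (loop 1) = Y ∧ p (loop 2) = 1 ∧ p (loop 3) = Z

/-- an automorphism of the free profinite group on `X, Y` which preserves the conjugacy classes of
`X` and `Y`, fixes `X Y` and is not inner -/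
def Exotic (σ : MulAut F2) : Prop :=
  Continuous σ ∧ (∃ a, σ X = a * X * a⁻¹) ∧ (∃ b, σ Y = b * Y * b⁻¹) ∧ σ (X * Y) = X * Y ∧
    ¬ ∃ w, ∀ u, σ u = w * u * w⁻¹

/-- reduction modulo `3` of the abelianization in type `(0, 4)` -/
def IsKap (κ : Pi 0 4 →* Multiplicative (ZMod 3 × ZMod 3 × ZMod 3)) : Prop :=
  IsOpen (κ.ker : Set (Pi 0 4)) ∧ κ (loop 0) = Multiplicative.ofAdd (1, 0, 0) ∧
    κ (loop 1) = Multiplicative.ofAdd (0, 1, 0) ∧ κ (loop 2) = Multiplicative.ofAdd (0, 0, 1) ∧
    κ (loop 3) = Multiplicative.ofAdd (-1, -1, -1)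

end Pool.Agent.H371.LG
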