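import Pool.Agent.H371.LG.R6
import Pool.Agent.H371.GT.F11
import Pool.Agent.H371.GT.G1
import Pool.Agent.H371.GT.G2
import Pool.Agent.H371.GT.G3
import Pool.Agent.H371.GT.Z1

set_option autoImplicit false

namespace Pool.Agent.H371.LG

open Pool.Agent.H371.GT

namespace E1x

/-- the product which has to be trivial -/
noncomputable def prd (l : Zhat) (q : F2 × F2) : F2 :=
  ppow X l * (q.1⁻¹ * ppow Y l * q.1) * (q.2⁻¹ * ppow Z l * q.2)

theorem prd_cont (l : Zhat) : Continuous (prd l) := by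
  unfold prd
  fun_prop

/-- the approximate solutions modulo `N` -/
def K (l : Zhat) (N : OpenNormalSubgroup F2) : Set (F2 × F2) :=
  {q | q.1 ∈ derived ∧ prd l q ∈ N.toSubgroup}

theorem K_closed (l : Zhat) (N : OpenNormalSubgroup F2) : IsClosed (K l N) := by
  have h1 : IsClosed {q : F2 × F2 | q.1 ∈ derived} := by
    have h : IsClosed (derived : Set F2) := isClosed_closure
    exact h.preimage continuous_fst
  have h2 : IsClosed {q : F2 × F2 | prd l q ∈ N.toSubgroup} := by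
    have h : IsClosed (N.toSubgroup : Set F2) := N.toSubgroup.isClosed_of_isOpen N.isOpen'
    exact h.preimage (prd_cont l)
  exact h1.inter h2

theorem K_nonempty (l : Zhatˣ) (N : OpenNormalSubgroup F2) : (K (l : Zhat) N).Nonempty := by
  have hfin : Finite (F2 ⧸ N.toSubgroup) := inferInstance
  have hker : IsOpen ((QuotientGroup.mk' N.toSubgroup).ker : Set F2) := by
    rw [QuotientGroup.ker_mk']
    exact N.isOpen'
  have hsurj : Function.Surjective (QuotientGroup.mk' N.toSubgroup) :=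
    QuotientGroup.mk'_surjective N.toSubgroup
  set ρ : F2 →* F2 ⧸ N.toSubgroup := QuotientGroup.mk' N.toSubgroup with hρ
  have hgen : Subgroup.closure {ρ X, ρ Y} = ⊤ := by
    rw [eq_top_iff]
    intro a _
    obtain ⟨b, rfl⟩ := hsurj a
    exact mem_of_gen ρ hker (Subgroup.closure {ρ X, ρ Y}) (Subgroup.subset_closure (by simp))
      (Subgroup.subset_closure (by simp)) b
  have hco : (res (l : Zhat) (pcard N)).Coprime (Nat.card (F2 ⧸ N.toSubgroup)) :=
    res_unit_coprime l (pcard N)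
  obtain ⟨f', hf', c', hc'⟩ := exists_commutator_step _ hco (ρ X) (ρ Y) hgen
  have hcomm : commutator (F2 ⧸ N.toSubgroup) = (commutator F2).map ρ := by
    rw [commutator_def, commutator_def, Subgroup.map_commutator, Subgroup.map_top_of_surjective ρ hsurj]
  rw [hcomm] at hf'
  obtain ⟨f, hf, rfl⟩ := hf'
  obtain ⟨c, rfl⟩ := hsurj c'
  refine ⟨(f, c⁻¹), subset_closure hf, ?_⟩
  have hpow : ∀ g : F2, ρ (ppow g (l : Zhat)) = ρ g ^ res (l : Zhat) (pcard N) :=
    fun g => mk_ppow N g l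
  rw [← QuotientGroup.eq_one_iff]
  show ρ (prd (l : Zhat) (f, c⁻¹)) = 1
  unfold prd
  simp only [map_mul, map_inv, hpow, inv_inv]
  rw [hc']
  have hZ : ρ Z = (ρ X * ρ Y)⁻¹ := by
    unfold Z
    rw [map_inv, map_mul]
  rw [hZ, inv_pow]
  group

end E1x

theorem exists_phi (l : Zhatˣ) : ∃ f ∈ derived, ∃ φ : F2 →ₜ* F2, IsPhi (l : Zhat) f φ ∧
    ∃ g, φ Z = g⁻¹ * ppow Z (l : Zhat) * g := by
  have hne : Nonempty (OpenNormalSubgroup F2) := by
    obtain ⟨N, -⟩ := ProfiniteGrp.exist_openNormalSubgroup_sub_open_nhds_of_one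
      (G := F2) isOpen_univ trivial
    exact ⟨N⟩
  have hdir : Directed (· ⊇ ·) (E1x.K (l : Zhat)) := by
    intro N M
    refine ⟨N ⊓ M, ?_, ?_⟩
    · intro q hq
      exact ⟨hq.1, (inf_le_left : N ⊓ M ≤ N) hq.2⟩
    · intro q hq
      exact ⟨hq.1, (inf_le_right : N ⊓ M ≤ M) hq.2⟩
  obtain ⟨q, hq⟩ := IsCompact.nonempty_iInter_of_directed_nonempty_isCompact_isClosed
    (E1x.K (l : Zhat)) hdir (E1x.K_nonempty l) (fun N => (E1x.K_closed _ N).isCompact)
    (E1x.K_closed _)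
  rw [Set.mem_iInter] at hq
  obtain ⟨f, g⟩ := q
  have h1 : E1x.prd (l : Zhat) (f, g) = 1 := by
    apply eq_of_forall_mk_eq
    intro N
    rw [QuotientGroup.mk_one]
    exact (QuotientGroup.eq_one_iff _).2 (hq N).2
  refine ⟨f, (hq hne.some).1, ev (ppow X (l : Zhat)) (f⁻¹ * ppow Y (l : Zhat) * f),
    ⟨ev_X _ _, ev_Y _ _⟩, g, ?_⟩
  have h2 : Z = (X * Y)⁻¹ := rfl
  rw [h2, map_inv, map_mul, ev_X, ev_Y, ← h2]
  exact inv_eq_of_mul_eq_one_right h1

end Pool.Agent.H371.LG
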