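import Pool.Agent.H371.LG.Defs

set_option autoImplicit false

namespace Pool.Agent.H371.LG

open Pool.Agent.H371.GT

namespace E2x

theorem exK (n : ℕ+) : ∃ k : ℤ, ((3 ^ ((n : ℕ).factorization 3) : ℕ) : ℤ) ∣ k + 1 ∧
    (((n : ℕ) / 3 ^ ((n : ℕ).factorization 3) : ℕ) : ℤ) ∣ k - 1 := by
  have hco : Nat.Coprime (3 ^ ((n : ℕ).factorization 3)) ((n : ℕ) / 3 ^ ((n : ℕ).factorization 3)) :=
    Nat.Coprime.pow_left _ (Nat.coprime_ordCompl Nat.prime_three n.ne_zero)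
  obtain ⟨u, v, huv⟩ := Nat.isCoprime_iff_coprime.2 hco
  refine ⟨1 - 2 * (v * (((n : ℕ) / 3 ^ ((n : ℕ).factorization 3) : ℕ) : ℤ)), ⟨2 * u, ?_⟩, ⟨-2 * v, ?_⟩⟩
  · linear_combination (-2 : ℤ) * huv
  · ring

/-- an integer which is `-1` modulo the part of `n` at `3` and `1` modulo the rest -/
noncomputable def kk (n : ℕ+) : ℤ := (exK n).choose

theorem kk1 (n : ℕ+) : ((3 ^ ((n : ℕ).factorization 3) : ℕ) : ℤ) ∣ kk n + 1 := (exK n).choose_spec.1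

theorem kk2 (n : ℕ+) : (((n : ℕ) / 3 ^ ((n : ℕ).factorization 3) : ℕ) : ℤ) ∣ kk n - 1 :=
  (exK n).choose_spec.2

theorem dvd_of (m : ℕ+) {x : ℤ} (h1 : ((3 ^ ((m : ℕ).factorization 3) : ℕ) : ℤ) ∣ x)
    (h2 : (((m : ℕ) / 3 ^ ((m : ℕ).factorization 3) : ℕ) : ℤ) ∣ x) : ((m : ℕ) : ℤ) ∣ x := by
  have hco : Nat.Coprime (3 ^ ((m : ℕ).factorization 3)) ((m : ℕ) / 3 ^ ((m : ℕ).factorization 3)) :=
    Nat.Coprime.pow_left _ (Nat.coprime_ordCompl Nat.prime_three m.ne_zero)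
  have h3 := (Nat.isCoprime_iff_coprime.2 hco).mul_dvd h1 h2
  rwa [← Nat.cast_mul, Nat.ordProj_mul_ordCompl_eq_self] at h3

theorem compat (m n : ℕ+) (h : (m : ℕ) ∣ n) : ((m : ℕ) : ℤ) ∣ kk m - kk n := by
  refine dvd_of m ?_ ?_
  · have h1 : ((3 ^ ((m : ℕ).factorization 3) : ℕ) : ℤ) ∣ kk n + 1 :=
      (Int.natCast_dvd_natCast.2 (Nat.ordProj_dvd_ordProj_of_dvd n.ne_zero h 3)).trans (kk1 n)
    have h2 := (kk1 m).sub h1
    have e : kk m + 1 - (kk n + 1) = kk m - kk n := by ring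
    rwa [e] at h2
  · have h1 : (((m : ℕ) / 3 ^ ((m : ℕ).factorization 3) : ℕ) : ℤ) ∣ kk n - 1 :=
      (Int.natCast_dvd_natCast.2 (Nat.ordCompl_dvd_ordCompl_of_dvd h 3)).trans (kk2 n)
    have h2 := (kk2 m).sub h1
    have e : kk m - 1 - (kk n - 1) = kk m - kk n := by ring
    rwa [e] at h2

/-- the profinite integer `-1` at `3` and `1` elsewhere -/
noncomputable def lam : Zhat := (⟨fun n => ((kk n : ℤ) : ZMod n), by
  intro m n h
  rw [map_intCast]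
  exact (ZMod.intCast_eq_intCast_iff_dvd_sub _ _ _).2 (compat m n h)⟩ : ↥ZhatRing)

theorem lam_apply (n : ℕ+) :
    (Subtype.val (p := fun a => a ∈ ZhatRing) lam n) = ((kk n : ℤ) : ZMod n) := rfl

theorem lam_sq : lam * lam = 1 := by
  apply Subtype.ext
  funext n
  show ((kk n : ℤ) : ZMod n) * ((kk n : ℤ) : ZMod n) = 1
  have h : ((n : ℕ) : ℤ) ∣ 1 - kk n * kk n := by
    refine dvd_of n ?_ ?_
    · have := (kk1 n).mul_right (1 - kk n)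
      have e : (kk n + 1) * (1 - kk n) = 1 - kk n * kk n := by ring
      rwa [e] at this
    · have := (kk2 n).mul_right (-(1 + kk n))
      have e : (kk n - 1) * (-(1 + kk n)) = 1 - kk n * kk n := by ring
      rwa [e] at this
  have h2 := (ZMod.intCast_eq_intCast_iff_dvd_sub (kk n * kk n) 1 (n : ℕ)).2 h
  push_cast at h2
  exact h2

end E2x

open E2x in
theorem exists_lam : ∃ l : Zhatˣ, (l : Zhat) * l = 1 ∧ (l : Zhat) ≠ 1 ∧
    res (l : Zhat) ⟨2 ^ 2, pow_pos two_pos 2⟩ = 1 := by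
  refine ⟨⟨lam, lam, lam_sq, lam_sq⟩, lam_sq, ?_, ?_⟩
  · intro h
    have h1 : ((kk 3 : ℤ) : ZMod (3 : ℕ+)) = 1 := by
      have := congrArg (fun l : Zhat => (Subtype.val (p := fun a => a ∈ ZhatRing) l (3 : ℕ+))) h
      exact this
    have h2 : (((3 : ℕ+) : ℕ) : ℤ) ∣ 1 - kk 3 := by
      refine (ZMod.intCast_eq_intCast_iff_dvd_sub (kk 3) 1 ((3 : ℕ+) : ℕ)).1 ?_
      rw [h1, Int.cast_one]
    have h3 := kk1 3
    have e3 : (((3 : ℕ+) : ℕ)).factorization 3 = 1 := by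
      show (3 : ℕ).factorization 3 = 1
      exact Nat.Prime.factorization_self Nat.prime_three
    rw [e3] at h3
    have h2' : (3 : ℤ) ∣ 1 - kk 3 := h2
    have h3' : (3 : ℤ) ∣ kk 3 + 1 := by simpa using h3
    omega
  · have h3 := kk2 ⟨2 ^ 2, pow_pos two_pos 2⟩
    have e3 : (2 ^ 2 : ℕ).factorization 3 = 0 := Nat.factorization_eq_zero_of_not_dvd (by norm_num)
    rw [PNat.mk_coe, e3] at h3
    have h4 : ((kk ⟨2 ^ 2, pow_pos two_pos 2⟩ : ℤ) : ZMod (2 ^ 2)) = 1 := by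
      have h5 : ((2 ^ 2 : ℕ) : ℤ) ∣ 1 - kk ⟨2 ^ 2, pow_pos two_pos 2⟩ := by
        rw [← neg_sub, dvd_neg]
        simpa using h3
      have h6 := (ZMod.intCast_eq_intCast_iff_dvd_sub (kk ⟨2 ^ 2, pow_pos two_pos 2⟩) 1 (2 ^ 2)).2 h5
      rw [h6, Int.cast_one]
    show ZMod.val ((kk ⟨2 ^ 2, pow_pos two_pos 2⟩ : ℤ) : ZMod (2 ^ 2)) = 1
    rw [h4]
    rfl

end Pool.Agent.H371.LG
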