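import Pool.Agent.H371.LG.Tors

set_option autoImplicit false

namespace Pool.Agent.H371.LG

open Pool.Agent.H371.GT

namespace E3x

/-- the elements commuting with `X` are congruent to powers of `X` modulo any open normal
subgroup -/
theorem exists_pow_X {w : F2} (h : w * X = X * w) (V : Subgroup F2) (hn : V.Normal)
    (hV : IsOpen (V : Set F2)) : ∃ n : ℕ, (X ^ n)⁻¹ * w ∈ V := by
  have h1 : ev Y X w * Y = Y * ev Y X w := by
    have h2 := congrArg (ev Y X) h
    rw [map_mul, map_mul, ev_X] at h2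
    exact h2
  have hn' : (V.comap (ev Y X).toMonoidHom).Normal := hn.comap _
  have hV' : IsOpen ((V.comap (ev Y X).toMonoidHom : Subgroup F2) : Set F2) :=
    hV.preimage (ev Y X).continuous_toFun
  obtain ⟨n, hn1⟩ := Z1x.exists_pow h1 _ hn' hV'
  refine ⟨n, ?_⟩
  have h3 : ev Y X ((Y ^ n)⁻¹ * ev Y X w) ∈ V := hn1
  have h4 : (ev Y X).comp (ev Y X) = ContinuousMonoidHom.id F2 := by
    apply hom_ext_XY
    · change ev Y X (ev Y X X) = X
      rw [ev_X, ev_Y]
    · change ev Y X (ev Y X Y) = Y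
      rw [ev_Y, ev_X]
  have h5 : ev Y X (ev Y X w) = w := DFunLike.congr_fun h4 w
  rw [map_mul, map_inv, map_pow, ev_Y, h5] at h3
  exact h3

/-- an element which commutes with `X` and which is killed by the homomorphisms to the cyclic
groups which kill `Y` is trivial -/
theorem eq_one {w : F2} (h : w * X = X * w)
    (h1 : ∀ (e : ℕ) [NeZero e] (κ : F2 →* Multiplicative (ZMod e)), IsOpen (κ.ker : Set F2) →
      κ Y = 1 → κ w = 1) : w = 1 := by
  apply eq_of_forall_mk_eq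
  intro N
  rw [QuotientGroup.mk_one, QuotientGroup.eq_one_iff]
  have hfin : Finite (F2 ⧸ N.toSubgroup) := F1x.finQ N.isOpen'
  have hpos : 0 < orderOf (QuotientGroup.mk X : F2 ⧸ N.toSubgroup) := orderOf_pos _
  obtain ⟨e, he⟩ : ∃ e, e = orderOf (QuotientGroup.mk X : F2 ⧸ N.toSubgroup) := ⟨_, rfl⟩
  rw [← he] at hpos
  have : NeZero e := ⟨hpos.ne'⟩
  obtain ⟨κ, kX, kY, ko⟩ := exists_finite_XY (Multiplicative.ofAdd (1 : ZMod e))
    (1 : Multiplicative (ZMod e))
  obtain ⟨n, hn⟩ := exists_pow_X h (N.toSubgroup ⊓ κ.ker) inferInstance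
    (by
      rw [Subgroup.coe_inf]
      exact N.isOpen'.inter ko)
  obtain ⟨hn1, hn2⟩ := Subgroup.mem_inf.1 hn
  rw [MonoidHom.mem_ker, map_mul, map_inv, map_pow, h1 e κ ko kY, mul_one,
    inv_eq_one, kX, ← ofAdd_nsmul, ofAdd_eq_one, nsmul_one, ZMod.natCast_eq_zero_iff] at hn2
  have h3 : X ^ n ∈ N.toSubgroup := by
    rw [← QuotientGroup.eq_one_iff, QuotientGroup.mk_pow]
    rw [he] at hn2
    exact orderOf_dvd_iff_pow_eq_one.1 hn2
  have h2 : w = X ^ n * ((X ^ n)⁻¹ * w) := by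
    rw [mul_inv_cancel_left]
  rw [h2]
  exact N.toSubgroup.mul_mem h3 hn1

end E3x

theorem sq_not_inner (l : Zhatˣ) (h1 : (l : Zhat) * l = 1) (h2 : (l : Zhat) ≠ 1)
    (h4 : res (l : Zhat) ⟨2 ^ 2, pow_pos two_pos 2⟩ = 1) (f : F2) (hf : f ∈ derived)
    (φ : F2 →ₜ* F2) (hφ : IsPhi (l : Zhat) f φ) (hZ : ∃ g, φ Z = g⁻¹ * ppow Z (l : Zhat) * g) :
    ¬ ∃ w, ∀ u, φ (φ u) = w * u * w⁻¹ := by
  rintro ⟨w, hw⟩
  -- `w` commutes with `X`
  have hX : φ (φ X) = X := by
    rw [hφ.1, map_ppow, hφ.1, ← GT.ppow_mul, h1, GT.ppow_one]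
  have hwX : w * X = X * w := by
    have h5 := hw X
    rw [hX] at h5
    exact (mul_inv_eq_iff_eq_mul.1 h5.symm)
  -- `f * φ f * w` commutes with `Y`
  have hY : φ (φ Y) = (f * φ f)⁻¹ * Y * (f * φ f) := by
    rw [hφ.2, map_mul, map_mul, map_inv, map_ppow, hφ.2, F11x.conj_ppow, ← GT.ppow_mul, h1, GT.ppow_one,
      mul_inv_rev]
    simp only [mul_assoc]
  have hwY : (f * φ f * w) * Y = Y * (f * φ f * w) := by
    have h5 := hw Y
    rw [hY] at h5
    have h6 : (f * φ f) * ((f * φ f)⁻¹ * Y * (f * φ f)) * w = (f * φ f) * (w * Y * w⁻¹) * w := by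
      rw [h5]
    have h7 : (f * φ f) * ((f * φ f)⁻¹ * Y * (f * φ f)) * w = Y * (f * φ f * w) := by group
    have h8 : (f * φ f) * (w * Y * w⁻¹) * w = (f * φ f * w) * Y := by group
    rw [← h7, h6, h8]
  have hw1 : w = 1 := by
    apply E3x.eq_one hwX
    intro e _ κ ko kY
    obtain ⟨n, hn⟩ := Z1x.exists_pow hwY κ.ker inferInstance ko
    have k1 : κ f = 1 := Z1x.map_derived κ ko hf
    have k2 : κ (φ f) = 1 := by
      have k3 : IsOpen ((κ.comp φ.toMonoidHom).ker : Set F2) := ko.preimage φ.continuous_toFun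
      exact Z1x.map_derived (κ.comp φ.toMonoidHom) k3 hf
    rw [MonoidHom.mem_ker, map_mul, map_mul, map_mul, map_inv, map_pow, k1, k2, kY, one_pow,
      inv_one, one_mul, one_mul, one_mul] at hn
    exact hn
  have h5 : ∀ a, (⇑φ)^[2] a = a := by
    intro a
    have h6 := hw a
    rw [hw1, one_mul, inv_one, mul_one] at h6
    exact h6
  rcases general (l : Zhat) φ ⟨hφ.1, ⟨f, hφ.2⟩, hZ⟩ 2 two_pos h5 with h6 | ⟨-, -, h6⟩
  · apply h2
    apply F11x.eq_one_of_ppow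
    rw [← hφ.1]
    exact h6 X
  · have h7 := h6 2
    rw [h4] at h7
    exact absurd h7 (by decide)

end Pool.Agent.H371.LG
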