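import Pool.Agent.H371.LG.E1
import Pool.Agent.H371.LG.E2
import Pool.Agent.H371.LG.E3

set_option autoImplicit false

namespace Pool.Agent.H371.LG

open Pool.Agent.H371.GT

namespace E4x

/-- the square of an endomorphism at an element whose image is conjugate to its `l`-th power -/
theorem sq_conj {l : Zhat} (h1 : l * l = 1) (φ : F2 →ₜ* F2) {y g : F2}
    (h : φ y = g⁻¹ * ppow y l * g) : φ (φ y) = (g * φ g)⁻¹ * y * (g * φ g) := by
  have e0 : ppow (φ y) l = g⁻¹ * y * g := by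
    have h2 := ppow_conj (ppow y l) g⁻¹ l
    rw [inv_inv, ← Pool.Agent.H371.GT.ppow_mul, h1, Pool.Agent.H371.GT.ppow_one] at h2
    rw [h, h2]
  have e1 : φ (φ y) = (φ g)⁻¹ * ppow (φ y) l * φ g := by
    conv_lhs => rw [h]
    rw [map_mul, map_mul, map_inv, map_ppow]
  rw [e1, e0, mul_inv_rev]
  group

end E4x

theorem exists_exotic : ∃ σ : MulAut F2, Exotic σ := by
  obtain ⟨l, h1, h2, h4⟩ := exists_lam
  obtain ⟨f, hf, φ, hφ, hZ⟩ := exists_phi l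
  have hni := sq_not_inner l h1 h2 h4 f hf φ hφ hZ
  obtain ⟨g, hg⟩ := hZ
  have hH : Hex l φ := ⟨hφ.1, ⟨f, hφ.2⟩, ⟨g, hg⟩⟩
  have hs := surj_of_hex l φ hH
  have hi := inj_of_surj φ hs
  obtain ⟨t, ht⟩ : ∃ t : MulAut F2, ∀ u, t u = φ u :=
    ⟨MulEquiv.ofBijective φ.toMonoidHom ⟨hi, hs⟩, fun _ => rfl⟩
  obtain ⟨k, hk⟩ : ∃ k : F2, k = g * φ g := ⟨_, rfl⟩
  have eX : φ (φ X) = X := by
    rw [hφ.1, map_ppow, hφ.1, ← Pool.Agent.H371.GT.ppow_mul, h1, Pool.Agent.H371.GT.ppow_one]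
  have eY : φ (φ Y) = (f * φ f)⁻¹ * Y * (f * φ f) := E4x.sq_conj h1 φ hφ.2
  have eZ : φ (φ Z) = k⁻¹ * Z * k := by
    rw [hk]
    exact E4x.sq_conj h1 φ hg
  have eXY : φ (φ (X * Y)) = k⁻¹ * (X * Y) * k := by
    have e : X * Y = Z⁻¹ := by
      unfold Z
      rw [inv_inv]
    rw [e, map_inv, map_inv, eZ]
    group
  have hσ : ∀ u, (MulAut.conj k * t * t) u = k * φ (φ u) * k⁻¹ := by
    intro u
    rw [MulAut.mul_apply, MulAut.mul_apply, MulAut.conj_apply, ht, ht]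
  refine ⟨MulAut.conj k * t * t, ?_, ⟨k, ?_⟩, ⟨k * (f * φ f)⁻¹, ?_⟩, ?_, ?_⟩
  · have hc : Continuous fun u : F2 => k * φ (φ u) * k⁻¹ :=
      ((continuous_const_mul k).comp
        (φ.continuous_toFun.comp φ.continuous_toFun)).mul_const _
    have he : (⇑(MulAut.conj k * t * t) : F2 → F2) = fun u => k * φ (φ u) * k⁻¹ := funext hσ
    rw [he]
    exact hc
  · rw [hσ, eX]
  · rw [hσ, eY]
    group
  · rw [hσ, eXY]
    group
  · rintro ⟨w, hw⟩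
    apply hni
    refine ⟨k⁻¹ * w, fun u => ?_⟩
    have h := hw u
    rw [hσ] at h
    calc φ (φ u) = k⁻¹ * (k * φ (φ u) * k⁻¹) * k := by group
      _ = k⁻¹ * (w * u * w⁻¹) * k := by rw [h]
      _ = k⁻¹ * w * u * (k⁻¹ * w)⁻¹ := by group

end Pool.Agent.H371.LG
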