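import Pool.Agent.H371.LG.A1
import Pool.Agent.H371.LG.A2

/-!
The group `T(π) = Aut_lac(π) / Inn(π)` and its subgroups `T⁺(D)`.
-/

set_option autoImplicit false

namespace Pool.Agent.H371.LG

open Pool.Agent.H371.GT

variable {g n : ℕ}

/-- the group `Aut_lac(π)` -/
def autLac (g n : ℕ) : Subgroup (MulAut (Pi g n)) where
  carrier := AutLac g n
  mul_mem' := autLac_mul
  one_mem' := ⟨continuous_id, 1, 1, fun j => ⟨1, by
    rw [Units.val_one, GT.ppow_one, Equiv.Perm.one_apply, one_mul, inv_one, mul_one]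
    rfl⟩⟩
  inv_mem' := autLac_inv

/-- the inner automorphisms in `Aut_lac(π)` -/
def inn (g n : ℕ) : Subgroup (autLac g n) :=
  (MulAut.conj : Pi g n →* MulAut (Pi g n)).range.comap (autLac g n).subtype

theorem conj_conj (φ : MulAut (Pi g n)) (w : Pi g n) :
    φ * MulAut.conj w * φ⁻¹ = MulAut.conj (φ w) := by
  apply MulEquiv.ext
  intro u
  show φ (w * φ⁻¹ u * w⁻¹) = φ w * u * (φ w)⁻¹
  rw [map_mul, map_mul, map_inv, MulAut.apply_inv_self]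

instance inn_normal : (inn g n).Normal := by
  constructor
  rintro x ⟨w, hw⟩ φ
  refine ⟨φ.1 w, ?_⟩
  rw [← conj_conj, hw]
  rfl

/-- the group `T(π) = Aut_lac(π) / Inn(π)` -/
abbrev T (g n : ℕ) : Type := autLac g n ⧸ inn g n

/-- the open normal subgroup `φ⁻¹(N)` -/
def pull (φ : MulAut (Pi g n)) (hφ : Continuous φ) (N : OpenNormalSubgroup (Pi g n)) :
    OpenNormalSubgroup (Pi g n) where
  toSubgroup := N.toSubgroup.comap φ.toMonoidHom
  isOpen' := N.isOpen'.preimage hφ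
  isNormal' := N.isNormal'.comap _

/-- the closure in `Aut_lac(π)` of the stabilizer of the abstract subgroup `D` -/
def closStab (D : Subgroup (Pi g n)) : Subgroup (autLac g n) where
  carrier := {φ | ∀ N : OpenNormalSubgroup (Pi g n), ∃ d ∈ autLac g n,
    D.map d.toMonoidHom = D ∧ ∀ u, (d u)⁻¹ * φ.1 u ∈ N.toSubgroup}
  mul_mem' := by
    intro φ ψ hφ hψ N
    obtain ⟨d, hd, hdD, hd2⟩ := hφ N
    obtain ⟨e, he, heD, he2⟩ := hψ (pull φ.1 φ.2.1 N)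
    refine ⟨d * e, (autLac g n).mul_mem hd he, ?_, fun u => ?_⟩
    · have : (d * e : MulAut (Pi g n)).toMonoidHom = d.toMonoidHom.comp e.toMonoidHom := rfl
      rw [this, ← Subgroup.map_map, heD, hdD]
    · have h1 : φ.1 ((e u)⁻¹ * ψ.1 u) ∈ N.toSubgroup := he2 u
      have h2 := N.toSubgroup.mul_mem (hd2 (e u)) h1
      have h3 : (d (e u))⁻¹ * φ.1 (e u) * φ.1 ((e u)⁻¹ * ψ.1 u) = (d (e u))⁻¹ * φ.1 (ψ.1 u) := by
        rw [map_mul, map_inv]
        group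
      rw [h3] at h2
      exact h2
  one_mem' := fun N => ⟨1, (autLac g n).one_mem, Subgroup.map_id D, fun u => by
    show u⁻¹ * u ∈ N.toSubgroup
    rw [inv_mul_cancel]
    exact N.toSubgroup.one_mem⟩
  inv_mem' := by
    intro φ hφ N
    have hc : Continuous (φ.1⁻¹ : MulAut (Pi g n)) := (autLac_inv φ.2).1
    obtain ⟨d, hd, hdD, hd2⟩ := hφ (pull φ.1⁻¹ hc N)
    refine ⟨d⁻¹, (autLac g n).inv_mem hd, ?_, fun u => ?_⟩
    · conv_lhs => rw [← hdD]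
      rw [Subgroup.map_map]
      have : (d⁻¹ : MulAut (Pi g n)).toMonoidHom.comp d.toMonoidHom = MonoidHom.id _ := by
        ext u
        exact MulAut.inv_apply_self _ d u
      rw [this, Subgroup.map_id]
    · have h1 : φ.1⁻¹ ((d (d⁻¹ u))⁻¹ * φ.1 (d⁻¹ u)) ∈ N.toSubgroup := hd2 (d⁻¹ u)
      rw [MulAut.apply_inv_self, map_mul, MulAut.inv_apply_self, map_inv] at h1
      have h2 := N.toSubgroup.inv_mem h1
      rw [mul_inv_rev, inv_inv] at h2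
      exact h2

/-- the elements of `Aut_lac(π)` on which the cyclotomic character is `1` (for `n ≥ 1`) -/
def chiOne (g n : ℕ) : Subgroup (autLac g n) where
  carrier := {φ | ∃ τ : Equiv.Perm (Fin n), ∀ j, ∃ a, φ.1 (loop j) = a * loop (τ j) * a⁻¹}
  mul_mem' := by
    rintro φ ψ ⟨τ, h⟩ ⟨ρ, k⟩
    refine ⟨τ * ρ, fun j => ?_⟩
    obtain ⟨a, ha⟩ := k j
    obtain ⟨b, hb⟩ := h (ρ j)
    refine ⟨φ.1 a * b, ?_⟩
    show φ.1 (ψ.1 (loop j)) = _
    rw [ha, map_mul, map_mul, map_inv, hb, Equiv.Perm.mul_apply]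
    group
  one_mem' := ⟨1, fun j => ⟨1, by
    rw [Equiv.Perm.one_apply, one_mul, inv_one, mul_one]
    rfl⟩⟩
  inv_mem' := by
    rintro φ ⟨τ, h⟩
    refine ⟨τ⁻¹, fun j => ?_⟩
    obtain ⟨a, ha⟩ := h (τ⁻¹ j)
    rw [show τ (τ⁻¹ j) = j from Equiv.apply_symm_apply τ j] at ha
    refine ⟨φ.1⁻¹ a⁻¹, ?_⟩
    have h1 : φ.1⁻¹ (φ.1 (loop (τ⁻¹ j))) = φ.1⁻¹ (a * loop j * a⁻¹) := by rw [ha]
    rw [MulAut.inv_apply_self, map_mul, map_mul, map_inv] at h1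
    show φ.1⁻¹ (loop j) = _
    rw [h1, map_inv]
    group

/-- `T⁺(D)`: the image in `T(π)` of the elements with cyclotomic character `1` of the closure of the
stabilizer of `D` -/
def tPlus (D : Subgroup (Pi g n)) : Subgroup (T g n) :=
  (closStab D ⊓ chiOne g n).map (QuotientGroup.mk' (inn g n))

theorem mem_tPlus {D : Subgroup (Pi g n)} (φ : autLac g n) :
    (QuotientGroup.mk φ : T g n) ∈ tPlus D ↔ φ.1 ∈ TPlus D := by
  constructor
  · rintro ⟨s, ⟨hs, τ, hτ⟩, h⟩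
    have h1 : s⁻¹ * φ ∈ inn g n := QuotientGroup.eq.1 h
    obtain ⟨w, hw⟩ := h1
    refine ⟨s.1 w, s.1, ⟨s.2, fun N => ?_⟩, ⟨s.2.1, τ, fun j => ?_⟩, ?_⟩
    · obtain ⟨d, hd, hdD, hd2⟩ := hs N
      exact ⟨d, ⟨hd, hdD⟩, hd2⟩
    · obtain ⟨a, ha⟩ := hτ j
      exact ⟨a, by rw [ha, GT.ppow_one]⟩
    · have h2 : MulAut.conj w = s.1⁻¹ * φ.1 := hw
      rw [← conj_conj, h2]
      group
  · rintro ⟨w, s, ⟨hs, hs2⟩, ⟨-, τ, hτ⟩, h⟩
    refine ⟨⟨s, hs⟩, ⟨fun N => ?_, τ, fun j => ?_⟩, ?_⟩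
    · obtain ⟨d, hd, hd2⟩ := hs2 N
      exact ⟨d, hd.1, hd.2, hd2⟩
    · obtain ⟨a, ha⟩ := hτ j
      rw [GT.ppow_one] at ha
      exact ⟨a, ha⟩
    · apply QuotientGroup.eq.2
      refine ⟨s⁻¹ w, ?_⟩
      show MulAut.conj (s⁻¹ w) = s⁻¹ * φ.1
      rw [h, ← conj_conj]
      group

end Pool.Agent.H371.LG
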