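import Mathlib
import Pool.Graph.R_pool_sql_team_8f841797.H18.Nielsen
import Pool.Graph.R_pool_sql_team_seeded_3997aac3.Q171.AS.Gen3

set_option autoImplicit false

namespace Pool.Agent.H371.LG.N1x

open FreeGroup (of lift mk)
open Pool.Agent.Q171.AS

/-- exponent of the generator `i` -/
def exZ (i : Fin 2) : FF →* Multiplicative ℤ :=
  lift ![if i = 0 then Multiplicative.ofAdd 1 else 1, if i = 1 then Multiplicative.ofAdd 1 else 1]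

/-- the exponents -/
def eZ (i : Fin 2) (w : FF) : ℤ := (exZ i w).toAdd

theorem eZ_mul (i : Fin 2) (v w : FF) : eZ i (v * w) = eZ i v + eZ i w := by
  simp [eZ]
theorem eZ_inv (i : Fin 2) (v : FF) : eZ i v⁻¹ = - eZ i v := by
  simp [eZ]
theorem eZ_00 : eZ 0 X = 1 := by simp [eZ, exZ]
theorem eZ_01 : eZ 0 Y = 0 := by simp [eZ, exZ]
theorem eZ_10 : eZ 1 X = 0 := by simp [eZ, exZ]
theorem eZ_11 : eZ 1 Y = 1 := by simp [eZ, exZ]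

theorem eZ_app (α : MulAut FF) (i : Fin 2) (w : FF) :
    eZ i (α w) = eZ i (α X) * eZ 0 w + eZ i (α Y) * eZ 1 w := by
  induction w using FreeGroup.induction_on with
  | C1 => simp [eZ]
  | of j =>
    fin_cases j
    · change eZ i (α X) = eZ i (α X) * eZ 0 X + eZ i (α Y) * eZ 1 X
      rw [eZ_00, eZ_10]; ring
    · change eZ i (α Y) = eZ i (α X) * eZ 0 Y + eZ i (α Y) * eZ 1 Y
      rw [eZ_01, eZ_11]; ring
  | inv_of j h =>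
    rw [map_inv, eZ_inv, eZ_inv, eZ_inv]
    have h' : eZ i (α (of j)) = eZ i (α X) * eZ 0 (of j) + eZ i (α Y) * eZ 1 (of j) := h
    rw [h']; ring
  | mul v w h1 h2 =>
    rw [map_mul, eZ_mul, eZ_mul, eZ_mul, h1, h2]; ring

theorem eZ_conj (i : Fin 2) (g w : FF) : eZ i (MulAut.conj g w) = eZ i w := by
  rw [MulAut.conj_apply, eZ_mul, eZ_mul, eZ_inv]; ring

/-- the image of a letter -/
def gl (a : Fin 2 × Bool) : MulAut FF := cond a.2 (![sA, tA] a.1) (![sA, tA] a.1)⁻¹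

theorem Φ_cons (a : Fin 2 × Bool) (L : List (Fin 2 × Bool)) : Φ (mk (a :: L)) = gl a * Φ (mk L) := by
  unfold Φ gl
  rw [FreeGroup.lift_mk, FreeGroup.lift_mk, List.map_cons, List.prod_cons]

/-- the ping-pong regions -/
def R (a : Fin 2 × Bool) (p q : ℤ) : Prop :=
  if a.1 = 0 then
    (if a.2 then (0 ≤ q ∧ q < p) ∨ (q ≤ 0 ∧ p < q) else (q ≤ 0 ∧ -q < p) ∨ (0 ≤ q ∧ p < -q))
  else
    (if a.2 then (p ≤ 0 ∧ -p < q) ∨ (0 ≤ p ∧ q < -p) else (0 ≤ p ∧ p < q) ∨ (p ≤ 0 ∧ q < p))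

theorem app_s (w : FF) : eZ 0 (sA w) = eZ 0 w + 2 * eZ 1 w ∧ eZ 1 (sA w) = eZ 1 w := by
  rw [eZ_app sA 0, eZ_app sA 1, sA_X, sA_Y]
  simp only [eZ_mul, eZ_00, eZ_01, eZ_10, eZ_11]
  constructor <;> ring
theorem app_t (w : FF) : eZ 0 (tA w) = eZ 0 w ∧ eZ 1 (tA w) = eZ 1 w - 2 * eZ 0 w := by
  rw [eZ_app tA 0, eZ_app tA 1, tA_X, tA_Y]
  simp only [eZ_mul, eZ_inv, eZ_00, eZ_01, eZ_10, eZ_11]
  constructor <;> ring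
theorem app_s' (w : FF) : eZ 0 (sA⁻¹ w) = eZ 0 w - 2 * eZ 1 w ∧ eZ 1 (sA⁻¹ w) = eZ 1 w := by
  have h := app_s (sA⁻¹ w)
  rw [MulAut.apply_inv_self] at h
  omega
theorem app_t' (w : FF) : eZ 0 (tA⁻¹ w) = eZ 0 w ∧ eZ 1 (tA⁻¹ w) = eZ 1 w + 2 * eZ 0 w := by
  have h := app_t (tA⁻¹ w)
  rw [MulAut.apply_inv_self] at h
  omega

theorem step0 (a : Fin 2 × Bool) (w : FF) (h : (eZ 0 w = 1 ∧ eZ 1 w = 0) ∨ (eZ 0 w = 0 ∧ eZ 1 w = 1)) :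
    R a (eZ 0 (gl a w)) (eZ 1 (gl a w)) := by
  obtain ⟨i, b⟩ := a
  have h1 := app_s w
  have h2 := app_t w
  have h3 := app_s' w
  have h4 := app_t' w
  fin_cases i <;> cases b
  · change (eZ 1 (sA⁻¹ w) ≤ 0 ∧ -eZ 1 (sA⁻¹ w) < eZ 0 (sA⁻¹ w)) ∨ (0 ≤ eZ 1 (sA⁻¹ w) ∧ eZ 0 (sA⁻¹ w) < -eZ 1 (sA⁻¹ w))
    omega
  · change (0 ≤ eZ 1 (sA w) ∧ eZ 1 (sA w) < eZ 0 (sA w)) ∨ (eZ 1 (sA w) ≤ 0 ∧ eZ 0 (sA w) < eZ 1 (sA w))
    omega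
  · change (0 ≤ eZ 0 (tA⁻¹ w) ∧ eZ 0 (tA⁻¹ w) < eZ 1 (tA⁻¹ w)) ∨ (eZ 0 (tA⁻¹ w) ≤ 0 ∧ eZ 1 (tA⁻¹ w) < eZ 0 (tA⁻¹ w))
    omega
  · change (eZ 0 (tA w) ≤ 0 ∧ -eZ 0 (tA w) < eZ 1 (tA w)) ∨ (0 ≤ eZ 0 (tA w) ∧ eZ 1 (tA w) < -eZ 0 (tA w))
    omega

theorem step1 (a b : Fin 2 × Bool) (hab : a.1 = b.1 → a.2 = b.2) (w : FF)
    (h : R b (eZ 0 w) (eZ 1 w)) : R a (eZ 0 (gl a w)) (eZ 1 (gl a w)) := by
  obtain ⟨i, c⟩ := a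
  obtain ⟨j, d⟩ := b
  have h1 := app_s w
  have h2 := app_t w
  have h3 := app_s' w
  have h4 := app_t' w
  have h5 : (j = 0 ∧ d = true ∧ ((0 ≤ eZ 1 w ∧ eZ 1 w < eZ 0 w) ∨ (eZ 1 w ≤ 0 ∧ eZ 0 w < eZ 1 w))) ∨
      (j = 0 ∧ d = false ∧ ((eZ 1 w ≤ 0 ∧ -eZ 1 w < eZ 0 w) ∨ (0 ≤ eZ 1 w ∧ eZ 0 w < -eZ 1 w))) ∨
      (j = 1 ∧ d = true ∧ ((eZ 0 w ≤ 0 ∧ -eZ 0 w < eZ 1 w) ∨ (0 ≤ eZ 0 w ∧ eZ 1 w < -eZ 0 w))) ∨
      (j = 1 ∧ d = false ∧ ((0 ≤ eZ 0 w ∧ eZ 0 w < eZ 1 w) ∨ (eZ 0 w ≤ 0 ∧ eZ 1 w < eZ 0 w))) := by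
    fin_cases j <;> cases d <;> simpa [R] using h
  fin_cases i <;> cases c
  · change (eZ 1 (sA⁻¹ w) ≤ 0 ∧ -eZ 1 (sA⁻¹ w) < eZ 0 (sA⁻¹ w)) ∨ (0 ≤ eZ 1 (sA⁻¹ w) ∧ eZ 0 (sA⁻¹ w) < -eZ 1 (sA⁻¹ w))
    rcases h5 with ⟨rfl, rfl, h5⟩ | ⟨rfl, rfl, h5⟩ | ⟨rfl, rfl, h5⟩ | ⟨rfl, rfl, h5⟩
    · simp at hab
    all_goals omega
  · change (0 ≤ eZ 1 (sA w) ∧ eZ 1 (sA w) < eZ 0 (sA w)) ∨ (eZ 1 (sA w) ≤ 0 ∧ eZ 0 (sA w) < eZ 1 (sA w))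
    rcases h5 with ⟨rfl, rfl, h5⟩ | ⟨rfl, rfl, h5⟩ | ⟨rfl, rfl, h5⟩ | ⟨rfl, rfl, h5⟩
    · omega
    · simp at hab
    all_goals omega
  · change (0 ≤ eZ 0 (tA⁻¹ w) ∧ eZ 0 (tA⁻¹ w) < eZ 1 (tA⁻¹ w)) ∨ (eZ 0 (tA⁻¹ w) ≤ 0 ∧ eZ 1 (tA⁻¹ w) < eZ 0 (tA⁻¹ w))
    rcases h5 with ⟨rfl, rfl, h5⟩ | ⟨rfl, rfl, h5⟩ | ⟨rfl, rfl, h5⟩ | ⟨rfl, rfl, h5⟩
    · omega
    · omega
    · simp at hab
    · omega
  · change (eZ 0 (tA w) ≤ 0 ∧ -eZ 0 (tA w) < eZ 1 (tA w)) ∨ (0 ≤ eZ 0 (tA w) ∧ eZ 1 (tA w) < -eZ 0 (tA w))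
    rcases h5 with ⟨rfl, rfl, h5⟩ | ⟨rfl, rfl, h5⟩ | ⟨rfl, rfl, h5⟩ | ⟨rfl, rfl, h5⟩
    · omega
    · omega
    · omega
    · simp at hab

theorem pong (w : FF) (h : (eZ 0 w = 1 ∧ eZ 1 w = 0) ∨ (eZ 0 w = 0 ∧ eZ 1 w = 1)) :
    ∀ (L : List (Fin 2 × Bool)) (a : Fin 2 × Bool), FreeGroup.IsReduced (a :: L) →
      R a (eZ 0 (Φ (mk (a :: L)) w)) (eZ 1 (Φ (mk (a :: L)) w)) := by
  intro L
  induction L with
  | nil =>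
    intro a _
    rw [Φ_cons, ← FreeGroup.one_eq_mk, map_one, mul_one]
    exact step0 a w h
  | cons b L ih =>
    intro a hr
    rw [Φ_cons, MulAut.mul_apply]
    rw [FreeGroup.isReduced_cons_cons] at hr
    exact step1 a b hr.1 _ (ih b hr.2)

theorem Φ_inj (l : LL) (h00 : eZ 0 (Φ l X) = 1) (h10 : eZ 1 (Φ l X) = 0)
    (h01 : eZ 0 (Φ l Y) = 0) (h11 : eZ 1 (Φ l Y) = 1) : l = 1 := by
  by_contra hne
  have h1 : l.toWord ≠ [] := fun h => hne (FreeGroup.toWord_eq_nil_iff.1 h)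
  obtain ⟨a, L, hL⟩ := List.exists_cons_of_ne_nil h1
  have hr : FreeGroup.IsReduced (a :: L) := hL ▸ FreeGroup.isReduced_toWord
  have hl : l = mk (a :: L) := by rw [← hL, FreeGroup.mk_toWord]
  have k1 := pong X (Or.inl ⟨eZ_00, eZ_10⟩) L a hr
  have k2 := pong Y (Or.inr ⟨eZ_01, eZ_11⟩) L a hr
  rw [← hl, h00, h10] at k1
  rw [← hl, h01, h11] at k2
  obtain ⟨i, b⟩ := a
  fin_cases i <;> cases b <;> simp [R] at k1 k2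

end Pool.Agent.H371.LG.N1x

namespace Pool.Agent.H371.LG

open Pool.Agent.Q171.AS N1x in
theorem ia2 (d : FreeGroup (Fin 2) →* FreeGroup (Fin 2)) (hd : Function.Surjective d)
    (h : ∀ i, Abelianization.of (d (FreeGroup.of i)) = Abelianization.of (FreeGroup.of i)) :
    ∃ w, ∀ u, d u = w * u * w⁻¹ := by
  have hgen : Pool.Agent.H18.Nielsen.Gen (d (FreeGroup.of 0), d (FreeGroup.of 1)) := by
    intro H h0 h1
    rw [eq_top_iff]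
    intro w _
    obtain ⟨w, rfl⟩ := hd w
    induction w using FreeGroup.induction_on with
    | C1 => simp
    | of i => fin_cases i <;> assumption
    | inv_of i ih => simpa using ih trivial
    | mul x y ihx ihy => rw [_root_.map_mul]; exact H.mul_mem (ihx trivial) (ihy trivial)
  have haut : ∃ α : MulAut FF, α X = d X ∧ α Y = d Y := by
    refine Pool.Agent.H18.Nielsen.nielsen _ hgen (fun p => ∃ α : MulAut FF, α X = p.1 ∧ α Y = p.2)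
      ⟨?_, ?_, ?_, ?_⟩ ⟨1, rfl, rfl⟩
    · rintro u v ⟨α, h1, h2⟩
      exact ⟨α * σA, by simpa using h2, by simpa using h1⟩
    · rintro u v ⟨α, h1, h2⟩
      exact ⟨α * εA, by simpa using h1, by simpa using h2⟩
    · rintro u v ⟨α, h1, h2⟩
      refine ⟨α * (σA * μA * σA * (MulAut.conj X)), ?_, ?_⟩
      · simp at h1 h2 ⊢
        exact h1
      · simp at h1 h2 ⊢
        rw [h1, h2]
        group
    · rintro u v c ⟨α, h1, h2⟩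
      refine ⟨MulAut.conj c * α, ?_, ?_⟩
      · simp at h1 h2 ⊢
        exact h1
      · simp at h1 h2 ⊢
        exact h2
  obtain ⟨α, hX, hY⟩ := haut
  have hdα : d = α.toMonoidHom := ext2 hX.symm hY.symm
  have key : ∀ {A : Type} [CommGroup A] (f : FF →* A) (i : Fin 2),
      f (d (FreeGroup.of i)) = f (FreeGroup.of i) := by
    intro A _ f i
    have := congrArg (Abelianization.lift f) (h i)
    rwa [Abelianization.lift_apply_of, Abelianization.lift_apply_of] at this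
  have k4 : ∀ i, e4 i (α X) = e4 i X ∧ e4 i (α Y) = e4 i Y := by
    intro i
    rw [hX, hY]
    exact ⟨congrArg Multiplicative.toAdd (key (ex4 i) 0), congrArg Multiplicative.toAdd (key (ex4 i) 1)⟩
  have kZ : ∀ i, eZ i (α X) = eZ i X ∧ eZ i (α Y) = eZ i Y := by
    intro i
    rw [hX, hY]
    exact ⟨congrArg Multiplicative.toAdd (key (exZ i) 0), congrArg Multiplicative.toAdd (key (exZ i) 1)⟩
  obtain ⟨r, l, hα⟩ := gen α ((k4 0).1.trans e4_00) ((k4 0).2.trans e4_01) ((k4 1).1.trans e4_10)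
    ((k4 1).2.trans e4_11)
  have hc : ∀ i w, eZ i (Φ l w) = eZ i (α w) := by
    intro i w
    rw [hα, MulAut.mul_apply, eZ_conj]
  have hl : l = 1 := by
    apply Φ_inj
    · rw [hc, (kZ 0).1, eZ_00]
    · rw [hc, (kZ 1).1, eZ_10]
    · rw [hc, (kZ 0).2, eZ_01]
    · rw [hc, (kZ 1).2, eZ_11]
  refine ⟨r, fun u => ?_⟩
  rw [hdα, hα, hl]
  simp

end Pool.Agent.H371.LG
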