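import Mathlib

set_option autoImplicit false

namespace Pool.Agent.H371.LG

namespace R1x

lemma ofFn_rot {G : Type} [Group G] (n : ℕ) (v : Fin (n + 1) → G) :
    (List.ofFn fun i => v (i + 1)).prod = (v 0)⁻¹ * (List.ofFn v).prod * v 0 := by
  rw [List.ofFn_succ', List.concat_eq_append, List.prod_append, List.prod_singleton,
    List.ofFn_succ (f := v), List.prod_cons, Fin.last_add_one]
  have h : (fun i : Fin n => v (Fin.castSucc i + 1)) = fun i => v i.succ := by
    funext i
    rw [Fin.coeSucc_eq_succ]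
  rw [h]
  group

/-- the set which is rotated -/
abbrev Tup {G : Type} [Group G] (S D : Finset G) (n : ℕ) : Type :=
  {v : Fin (n + 1) → G // (∀ i, v i ∈ S) ∧ (List.ofFn v).prod ∈ D}

/-- the rotation -/
def rot {G : Type} [Group G] (S D : Finset G) (hD : ∀ d ∈ D, ∀ g : G, g * d * g⁻¹ ∈ D) (n : ℕ) :
    Function.End (Tup S D n) := fun v =>
  ⟨fun i => v.1 (i + 1), fun i => v.2.1 _, by
    rw [ofFn_rot]
    have h := hD _ v.2.2 (v.1 0)⁻¹
    rwa [inv_inv] at h⟩

lemma rot_iter {G : Type} [Group G] (S D : Finset G) (hD : ∀ d ∈ D, ∀ g : G, g * d * g⁻¹ ∈ D)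
    (n k : ℕ) (v : Tup S D n) : ((rot S D hD n)^[k] v).1 = fun i => v.1 (i + k • (1 : Fin (n + 1))) := by
  induction k generalizing v with
  | zero =>
    funext i
    rw [Function.iterate_zero, id, zero_nsmul, add_zero]
  | succ k ih =>
    rw [Function.iterate_succ_apply, ih]
    funext i
    show v.1 (i + k • (1 : Fin (n + 1)) + 1) = v.1 (i + (k + 1) • (1 : Fin (n + 1)))
    rw [succ_nsmul, add_assoc]

lemma rot_pow {G : Type} [Group G] (S D : Finset G) (hD : ∀ d ∈ D, ∀ g : G, g * d * g⁻¹ ∈ D)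
    (n : ℕ) : (rot S D hD n) ^ (n + 1) ^ 1 = 1 := by
  rw [pow_one]
  have h1 : ((rot S D hD n) ^ (n + 1) : Function.End (Tup S D n)) =
      (rot S D hD n)^[n + 1] :=
    hom_coe_pow (fun g : Function.End (Tup S D n) => g) rfl (fun g h => rfl) (rot S D hD n) (n + 1)
  rw [h1]
  funext v
  apply Subtype.ext
  rw [rot_iter]
  funext i
  have h2 : (n + 1) • (1 : Fin (n + 1)) = 0 := by
    have h3 := card_nsmul_eq_zero (x := (1 : Fin (n + 1)))
    rwa [Fintype.card_fin] at h3
  rw [h2, add_zero]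
  rfl

lemma const_of_fix {G : Type} {n : ℕ} (v : Fin (n + 1) → G) (h : ∀ i, v (i + 1) = v i) :
    ∀ i, v i = v 0 := by
  intro i
  induction i using Fin.induction with
  | zero => rfl
  | succ i ih => rw [← Fin.coeSucc_eq_succ, h, ih]

end R1x

open R1x in
theorem rot_count {G : Type} [Group G] [Fintype G] [DecidableEq G] (p : ℕ) [Fact p.Prime]
    (S D : Finset G) (hD : ∀ d ∈ D, ∀ g : G, g * d * g⁻¹ ∈ D) :
    (Finset.univ.filter fun v : Fin p → G => (∀ i, v i ∈ S) ∧ (List.ofFn v).prod ∈ D).card ≡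
      (S.filter fun a => a ^ p ∈ D).card [MOD p] := by
  classical
  obtain ⟨n, rfl⟩ : ∃ n, p = n + 1 :=
    ⟨p - 1, (Nat.succ_pred_eq_of_pos (Fact.out : p.Prime).pos).symm⟩
  have h1 := Equiv.Perm.card_fixedPoints_modEq (f := rot S D hD n) (p := n + 1) (n := 1)
    (rot_pow S D hD n)
  have h2 : Fintype.card (Tup S D n) = (Finset.univ.filter fun v : Fin (n + 1) → G =>
      (∀ i, v i ∈ S) ∧ (List.ofFn v).prod ∈ D).card := Fintype.card_subtype _
  rw [h2] at h1
  refine h1.trans (congrArg (fun k => k % (n + 1)) ?_)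
  have h3 : Fintype.card {a : G // a ∈ S ∧ a ^ (n + 1) ∈ D} =
      (S.filter fun a => a ^ (n + 1) ∈ D).card := by
    rw [Fintype.card_subtype]
    congr 1
    ext a
    rw [Finset.mem_filter, Finset.mem_filter]
    exact ⟨fun h => h.2, fun h => ⟨Finset.mem_univ _, h⟩⟩
  rw [← h3]
  refine Fintype.card_congr ?_
  have hprod : ∀ a : G, (List.ofFn fun _ : Fin (n + 1) => a).prod = a ^ (n + 1) := by
    intro a
    rw [List.ofFn_const, List.prod_replicate]
  have hfix : ∀ v : Function.fixedPoints (rot S D hD n), ∀ i, v.1.1 i = v.1.1 0 := by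
    intro v
    apply const_of_fix
    intro i
    exact congrFun (congrArg Subtype.val v.2) i
  exact
    { toFun := fun v => ⟨v.1.1 0, v.1.2.1 0, by
        have h4 := v.1.2.2
        have h5 : v.1.1 = fun _ => v.1.1 0 := funext (hfix v)
        rw [h5, hprod] at h4
        exact h4⟩
      invFun := fun a => ⟨⟨fun _ => a.1, fun _ => a.2.1, by
        rw [hprod]
        exact a.2.2⟩, rfl⟩
      left_inv := fun v => Subtype.ext (Subtype.ext (funext fun i => (hfix v i).symm))
      right_inv := fun a => rfl }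

end Pool.Agent.H371.LG
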