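import Pool.Agent.H371.LG.Defs
import Pool.Agent.H371.LG.R1

set_option autoImplicit false

namespace Pool.Agent.H371.LG

open Pool.Agent.H371.GT

namespace R2x

theorem pow_sum_ofFn {ι A : Type} [Fintype ι] [Ring A] (f : ι → A) (n : ℕ) :
    (∑ y, f y) ^ n = ∑ v : Fin n → ι, (List.ofFn fun i => f (v i)).prod := by
  classical
  induction n with
  | zero => simp
  | succ n ih =>
    rw [pow_succ', ih, Finset.sum_mul_sum, ← (Fin.consEquiv fun _ : Fin (n + 1) => ι).sum_comp,
      Fintype.sum_prod_type]
    refine Finset.sum_congr rfl fun y _ => Finset.sum_congr rfl fun w _ => ?_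
    rw [List.ofFn_succ, List.prod_cons]
    rfl

variable {G : Type} [Group G]

theorem cs_eq [Fintype G] [DecidableRel (IsConj : G → G → Prop)] (p : ℕ) [Fact p.Prime] (x : G) :
    cs p x = ∑ y, if IsConj x y then (MonoidAlgebra.single y 1 : MonoidAlgebra (ZMod p) G) else 0 := by
  classical
  unfold cs
  rw [finsum_mem_eq_toFinset_sum, ← Finset.sum_filter]
  refine Finset.sum_congr ?_ fun _ _ => rfl
  ext y
  rw [Set.mem_toFinset, Finset.mem_filter]
  exact ⟨fun h => ⟨Finset.mem_univ _, h⟩, fun h => h.2⟩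

theorem coeff_cs [Finite G] [DecidableRel (IsConj : G → G → Prop)] (p : ℕ) [Fact p.Prime]
    (x s : G) : (cs p x).coeff s = if IsConj x s then 1 else 0 := by
  have := Fintype.ofFinite G
  rw [cs_eq]
  rw [MonoidAlgebra.coeff_sum, Finsupp.finsetSum_apply]
  rw [Finset.sum_eq_single s]
  · split_ifs <;> simp
  · intro b _ hb
    split_ifs with h
    · rw [MonoidAlgebra.coeff_single, Finsupp.single_eq_of_ne (by exact fun h => hb h.symm)]
    · simp
  · intro h
    exact absurd (Finset.mem_univ s) h

theorem isConj_conj_iff (x s g : G) : IsConj x (g * s * g⁻¹) ↔ IsConj x s := by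
  have h : IsConj s (g * s * g⁻¹) := isConj_iff.2 ⟨g, rfl⟩
  exact ⟨fun h1 => h1.trans h.symm, fun h1 => h1.trans h⟩

theorem comm_cs [Finite G] (p : ℕ) [Fact p.Prime] (x g : G) :
    Commute (MonoidAlgebra.single g 1 : MonoidAlgebra (ZMod p) G) (cs p x) := by
  classical
  unfold Commute SemiconjBy
  ext s
  rw [MonoidAlgebra.coeff_single_mul_apply, MonoidAlgebra.coeff_mul_single_apply, coeff_cs,
    coeff_cs, one_mul, mul_one]
  have h : IsConj x (g⁻¹ * s) ↔ IsConj x (s * g⁻¹) := by
    rw [← isConj_conj_iff x (g⁻¹ * s) g]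
    simp
  simp only [h]

theorem coeff_pow_conj [Finite G] (p : ℕ) [Fact p.Prime] (x g s : G) (n : ℕ) :
    (cs p x ^ n).coeff (g * s * g⁻¹) = (cs p x ^ n).coeff s := by
  have h := (comm_cs p x g).pow_right n
  have h1 := congrArg (fun z : MonoidAlgebra (ZMod p) G => z.coeff (g * s)) h.eq
  simp only [MonoidAlgebra.coeff_single_mul_apply, MonoidAlgebra.coeff_mul_single_apply, one_mul,
    mul_one, inv_mul_cancel_left] at h1
  exact h1.symm

theorem card_class_dvd [Fintype G] [DecidableEq G] [DecidableRel (IsConj : G → G → Prop)] (s : G) :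
    (Finset.univ.filter fun t => IsConj s t).card ∣ Nat.card G := by
  classical
  have : Fintype (ConjAct G) := Fintype.ofEquiv G ConjAct.toConjAct.toEquiv
  have : Fintype (MulAction.orbit (ConjAct G) s) := Fintype.ofFinite _
  have : Fintype (MulAction.stabilizer (ConjAct G) s) := Fintype.ofFinite _
  have h := MulAction.card_orbit_mul_card_stabilizer_eq_card_group (ConjAct G) s
  have h1 : Fintype.card (MulAction.orbit (ConjAct G) s) =
      (Finset.univ.filter fun t => IsConj s t).card := by
    refine Fintype.card_of_subtype _ fun t => ?_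
    rw [ConjAct.mem_orbit_conjAct, isConj_comm]
    simp
  have h2 : Fintype.card (ConjAct G) = Nat.card G := by
    rw [← Nat.card_eq_fintype_card]
    exact Nat.card_congr ConjAct.ofConjAct.toEquiv
  rw [← h2, ← h, h1]
  exact Dvd.intro _ rfl

/-- the sum of the coefficients of `(cs p x) ^ n` on a set -/
theorem sum_coeff [Fintype G] [DecidableEq G] [DecidableRel (IsConj : G → G → Prop)]
    (p : ℕ) [Fact p.Prime] (x : G) (n : ℕ) (D : Finset G) :
    ∑ t ∈ D, (cs p x ^ n).coeff t =
      (((Finset.univ.filter fun v : Fin n → G =>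
        (∀ i, v i ∈ Finset.univ.filter fun t => IsConj x t) ∧ (List.ofFn v).prod ∈ D).card : ℕ) :
          ZMod p) := by
  have e1 : cs p x = ∑ y, if IsConj x y then
      (MonoidAlgebra.single y 1 : MonoidAlgebra (ZMod p) G) else 0 := by
    rw [cs_eq]
  rw [e1, pow_sum_ofFn]
  have e2 : ∀ v : Fin n → G, (List.ofFn fun i => if IsConj x (v i) then
      (MonoidAlgebra.single (v i) 1 : MonoidAlgebra (ZMod p) G) else 0).prod =
      if ∀ i, IsConj x (v i) then MonoidAlgebra.single (List.ofFn v).prod 1 else 0 := by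
    intro v
    split_ifs with h
    · have e3 : (List.ofFn fun i => if IsConj x (v i) then
          (MonoidAlgebra.single (v i) 1 : MonoidAlgebra (ZMod p) G) else 0) =
          (List.ofFn v).map (MonoidAlgebra.of (ZMod p) G) := by
        rw [List.map_ofFn]
        congr 1
        funext i
        rw [if_pos (h i)]
        rfl
      rw [e3, ← map_list_prod]
      rfl
    · push Not at h
      obtain ⟨i, hi⟩ := h
      refine List.prod_eq_zero ?_
      rw [List.mem_ofFn]
      exact ⟨i, if_neg hi⟩
  simp_rw [e2, MonoidAlgebra.coeff_sum, Finsupp.finsetSum_apply]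
  rw [Finset.sum_comm, Finset.card_filter, Nat.cast_sum]
  refine Finset.sum_congr rfl fun v _ => ?_
  by_cases h : ∀ i, IsConj x (v i)
  · simp only [if_pos h, MonoidAlgebra.coeff_single, Finsupp.single_apply, Finset.sum_ite_eq]
    have h' : ∀ i, v i ∈ Finset.univ.filter fun t => IsConj x t := fun i =>
      Finset.mem_filter.2 ⟨Finset.mem_univ _, h i⟩
    by_cases h2 : (List.ofFn v).prod ∈ D
    · rw [if_pos h2, if_pos ⟨h', h2⟩, Nat.cast_one]
    · rw [if_neg h2, if_neg (fun h3 => h2 h3.2), Nat.cast_zero]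
  · simp only [if_neg h]
    rw [if_neg]
    · simp
    · intro h3
      exact h fun i => (Finset.mem_filter.1 (h3.1 i)).2

end R2x

theorem cs_pow (p : ℕ) [Fact p.Prime] {G : Type} [Group G] [Finite G] (hp : ¬ p ∣ Nat.card G)
    (x : G) : cs p x ^ p = cs p (x ^ p) := by
  classical
  have := Fintype.ofFinite G
  have hcop : (Nat.card G).Coprime p :=
    ((Nat.Prime.coprime_iff_not_dvd (Fact.out : p.Prime)).2 hp).symm
  have hinj : Function.Injective fun a : G => a ^ p := (powCoprime hcop).injective
  ext s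
  rw [R2x.coeff_cs]
  set D : Finset G := Finset.univ.filter fun t => IsConj s t with hD
  have hD0 : ((D.card : ℕ) : ZMod p) ≠ 0 := by
    rw [Ne, ZMod.natCast_eq_zero_iff]
    exact fun h => hp (h.trans (R2x.card_class_dvd s))
  have hDconj : ∀ d ∈ D, ∀ g : G, g * d * g⁻¹ ∈ D := by
    intro d hd g
    rw [hD, Finset.mem_filter] at hd ⊢
    exact ⟨Finset.mem_univ _, (R2x.isConj_conj_iff s d g).2 hd.2⟩
  have h1 : ∑ t ∈ D, (cs p x ^ p).coeff t = (D.card : ZMod p) * (cs p x ^ p).coeff s := by
    rw [Finset.sum_congr rfl (g := fun _ => (cs p x ^ p).coeff s), Finset.sum_const, nsmul_eq_mul]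
    intro t ht
    obtain ⟨g, hg⟩ := isConj_iff.1 (Finset.mem_filter.1 ht).2
    rw [← hg, R2x.coeff_pow_conj]
  have h2 := R2x.sum_coeff p x p D
  have h3 := rot_count p (Finset.univ.filter fun t => IsConj x t) D hDconj
  have h4 : (((Finset.univ.filter fun v : Fin p → G =>
        (∀ i, v i ∈ Finset.univ.filter fun t => IsConj x t) ∧ (List.ofFn v).prod ∈ D).card : ℕ) :
          ZMod p) = ((((Finset.univ.filter fun t => IsConj x t).filter fun a => a ^ p ∈ D).card : ℕ) :
          ZMod p) := (ZMod.natCast_eq_natCast_iff _ _ _).2 h3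
  rw [h1, h4] at h2
  have hpow : ∀ a : G, IsConj x a → IsConj (x ^ p) (a ^ p) := by
    intro a ha
    obtain ⟨g, hg⟩ := isConj_iff.1 ha
    exact isConj_iff.2 ⟨g, by rw [← hg, conj_pow]⟩
  by_cases hs : IsConj (x ^ p) s
  · rw [if_pos hs]
    have h5 : ((Finset.univ.filter fun t => IsConj x t).filter fun a => a ^ p ∈ D).card =
        D.card := by
      have h6 : D = ((Finset.univ.filter fun t => IsConj x t).filter fun a => a ^ p ∈ D).image
          fun a => a ^ p := by
        ext t
        constructor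
        · intro ht
          have h7 : IsConj (x ^ p) t := hs.trans (Finset.mem_filter.1 ht).2
          obtain ⟨g, hg⟩ := isConj_iff.1 h7
          rw [Finset.mem_image]
          have h8 : (g * x * g⁻¹) ^ p = t := by rw [conj_pow, hg]
          refine ⟨g * x * g⁻¹, ?_, h8⟩
          rw [Finset.mem_filter, Finset.mem_filter]
          refine ⟨⟨Finset.mem_univ _, isConj_iff.2 ⟨g, rfl⟩⟩, ?_⟩
          rw [h8]
          exact ht
        · intro ht
          obtain ⟨a, ha, rfl⟩ := Finset.mem_image.1 ht
          exact (Finset.mem_filter.1 ha).2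
      conv_rhs => rw [h6]
      rw [Finset.card_image_of_injective _ hinj]
    rw [h5] at h2
    exact mul_left_cancel₀ hD0 (h2.trans (mul_one _).symm)
  · rw [if_neg hs]
    have h5 : ((Finset.univ.filter fun t => IsConj x t).filter fun a => a ^ p ∈ D) = ∅ := by
      rw [Finset.filter_eq_empty_iff]
      intro a ha h6
      exact hs ((hpow a (Finset.mem_filter.1 ha).2).trans (Finset.mem_filter.1 h6).2.symm)
    rw [h5, Finset.card_empty, Nat.cast_zero] at h2
    exact (mul_eq_zero.1 h2).resolve_left hD0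

end Pool.Agent.H371.LG
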