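import Pool.Agent.H371.LG.R2

set_option autoImplicit false

namespace Pool.Agent.H371.LG

open Pool.Agent.H371.GT

theorem R3x_cs_eq (p : ℕ) {G : Type} [Group G] [Finite G] (x : G) :
    cs p x = ∑ y ∈ (Set.toFinite {y : G | IsConj x y}).toFinset, MonoidAlgebra.single y (1 : ZMod p) := by
  unfold cs
  exact finsum_mem_eq_finite_toFinset_sum _ _

open Classical in
theorem R3x_cs_coeff (p : ℕ) {G : Type} [Group G] [Finite G] (x w : G) :
    (cs p x).coeff w = if IsConj x w then (1 : ZMod p) else 0 := by
  rw [R3x_cs_eq, MonoidAlgebra.coeff_sum, Finsupp.finsetSum_apply]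
  simp only [MonoidAlgebra.coeff_single, Finsupp.single_apply]
  rw [Finset.sum_ite_eq']
  simp only [Set.Finite.mem_toFinset, Set.mem_ofPred_eq]

theorem R3x_comm_iff (p : ℕ) {G : Type} [Group G] (g : G) (f : MonoidAlgebra (ZMod p) G) :
    Commute (MonoidAlgebra.single g 1) f ↔ ∀ w : G, f.coeff (g * w * g⁻¹) = f.coeff w := by
  constructor
  · intro h w
    have h1 : (MonoidAlgebra.single g 1 * f).coeff (g * w) = (f * MonoidAlgebra.single g 1).coeff (g * w) := by
      rw [h.eq]
    rw [MonoidAlgebra.coeff_single_mul_apply, MonoidAlgebra.coeff_mul_single_apply, one_mul, mul_one,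
      inv_mul_cancel_left] at h1
    exact h1.symm
  · intro h
    apply MonoidAlgebra.ext
    ext w
    rw [MonoidAlgebra.coeff_single_mul_apply, MonoidAlgebra.coeff_mul_single_apply, one_mul, mul_one]
    have h1 := h (g⁻¹ * w)
    rw [mul_inv_cancel_left] at h1
    exact h1.symm

theorem R3x_cs_central (p : ℕ) {G : Type} [Group G] [Finite G] (x g : G) :
    Commute (MonoidAlgebra.single g 1) (cs p x) := by
  classical
  rw [R3x_comm_iff]
  intro w
  rw [R3x_cs_coeff, R3x_cs_coeff]
  have h : IsConj x (g * w * g⁻¹) ↔ IsConj x w := by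
    have h2 : IsConj w (g * w * g⁻¹) := isConj_iff.2 ⟨g, rfl⟩
    exact ⟨fun h => h.trans h2.symm, fun h => h.trans h2⟩
  simp only [h]

theorem R3x_comm_cs (p : ℕ) {G : Type} [Group G] [Finite G] (x : G) (f : MonoidAlgebra (ZMod p) G)
    (hf : ∀ g : G, Commute (MonoidAlgebra.single g 1) f) : Commute f (cs p x) := by
  rw [R3x_cs_eq]
  exact Commute.sum_right _ _ _ fun y _ => (hf y).symm

theorem R3x_conj_pow (p : ℕ) [Fact p.Prime] {G : Type} [Group G] [Finite G]
    (hp : ¬ p ∣ Nat.card G) (x w : G) : IsConj (x ^ p) (w ^ p) ↔ IsConj x w := by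
  constructor
  · intro h
    obtain ⟨g, hg⟩ := isConj_iff.1 h
    rw [← conj_pow] at hg
    have hc : (Nat.card G).Coprime p := ((Fact.out : p.Prime).coprime_iff_not_dvd.2 hp).symm
    have hi := (powCoprime hc).injective (a₁ := g * x * g⁻¹) (a₂ := w) hg
    exact isConj_iff.2 ⟨g, hi⟩
  · intro h
    exact h.pow p

theorem R3x_charP (p : ℕ) [Fact p.Prime] (G : Type) [Group G] :
    CharP (MonoidAlgebra (ZMod p) G) p :=
  charP_of_injective_algebraMap (FaithfulSMul.algebraMap_injective (ZMod p) (MonoidAlgebra (ZMod p) G)) p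

theorem frob_central (p : ℕ) [Fact p.Prime] {G : Type} [Group G] [Finite G]
    (hp : ¬ p ∣ Nat.card G) (f : MonoidAlgebra (ZMod p) G)
    (hf : ∀ g : G, Commute (MonoidAlgebra.single g 1) f) (w : G) : (f ^ p).coeff (w ^ p) = f.coeff w := by
  classical
  have := R3x_charP p G
  induction hn : f.coeff.support.card using Nat.strong_induction_on generalizing f w with
  | _ n ih =>
  by_cases h0 : f = 0
  · rw [h0, zero_pow (Fact.out : p.Prime).ne_zero]
    rfl
  · obtain ⟨x, hx⟩ : ∃ x, f.coeff x ≠ 0 := by
      by_contra hc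
      push Not at hc
      apply h0
      apply MonoidAlgebra.ext
      ext y
      exact hc y
    have hinv : ∀ y, IsConj x y → f.coeff y = f.coeff x := by
      intro y hy
      obtain ⟨g, hg⟩ := isConj_iff.1 hy
      rw [← hg]
      exact (R3x_comm_iff p g f).1 (hf g) x
    set f' : MonoidAlgebra (ZMod p) G := f - f.coeff x • cs p x with hf'
    have hcf : ∀ y, f'.coeff y = f.coeff y - f.coeff x * if IsConj x y then 1 else 0 := by
      intro y
      rw [hf', MonoidAlgebra.coeff_sub, Finsupp.sub_apply, MonoidAlgebra.coeff_smul_apply,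
        R3x_cs_coeff, smul_eq_mul]
    have hcent : ∀ g : G, Commute (MonoidAlgebra.single g 1) f' := by
      intro g
      exact (hf g).sub_right ((R3x_cs_central p x g).smul_right _)
    have hsub : f'.coeff.support ⊂ f.coeff.support := by
      rw [Finset.ssubset_iff_of_subset]
      · refine ⟨x, Finsupp.mem_support_iff.2 hx, ?_⟩
        rw [Finsupp.notMem_support_iff, hcf, if_pos (IsConj.refl x), mul_one, sub_self]
      · intro y hy
        rw [Finsupp.mem_support_iff] at hy ⊢
        intro hy0
        apply hy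
        rw [hcf, hy0]
        by_cases hc : IsConj x y
        · exact absurd ((hinv y hc).symm.trans hy0) hx
        · rw [if_neg hc, mul_zero, sub_zero]
    have hlt : f'.coeff.support.card < n := by
      rw [← hn]
      exact Finset.card_lt_card hsub
    have ih' := ih _ hlt f' hcent w rfl
    have hfe : f = f' + f.coeff x • cs p x := by rw [hf', sub_add_cancel]
    have hcomm : Commute f' (f.coeff x • cs p x) := (R3x_comm_cs p x f' hcent).smul_right _
    have hpow : f ^ p = f' ^ p + f.coeff x • cs p (x ^ p) := by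
      have h1 : (f' + f.coeff x • cs p x) ^ p = f' ^ p + (f.coeff x • cs p x) ^ p :=
        add_pow_char_of_commute p hcomm
      rw [← hfe, smul_pow, ZMod.pow_card, cs_pow p hp x] at h1
      exact h1
    rw [hpow, MonoidAlgebra.coeff_add, Finsupp.add_apply, ih', MonoidAlgebra.coeff_smul_apply,
      R3x_cs_coeff, smul_eq_mul, hcf]
    simp only [R3x_conj_pow p hp]
    ring

end Pool.Agent.H371.LG
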