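import Pool.Agent.H371.LG.R3

set_option autoImplicit false

namespace Pool.Agent.H371.LG

open Pool.Agent.H371.GT

namespace R4x

open Classical in
/-- the conjugacy class as a finite set -/
noncomputable def Cl {G : Type} [Group G] [Fintype G] (x : G) : Finset G :=
  Finset.univ.filter (fun y => IsConj x y)

theorem mem_Cl {G : Type} [Group G] [Fintype G] (x y : G) : y ∈ Cl x ↔ IsConj x y := by
  classical
  simp [Cl]

theorem cs_eq (p : ℕ) {G : Type} [Group G] [Finite G] [Fintype G] (x : G) :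
    cs p x = ∑ y ∈ Cl x, MonoidAlgebra.single y (1 : ZMod p) := by
  unfold cs
  rw [finsum_mem_eq_finite_toFinset_sum _ (Set.toFinite _)]
  refine Finset.sum_congr ?_ (fun _ _ => rfl)
  ext y
  rw [mem_Cl, Set.Finite.mem_toFinset]
  rfl

theorem central (p : ℕ) {G : Type} [Group G] [Finite G] (x g : G) :
    Commute (MonoidAlgebra.single g (1 : ZMod p)) (cs p x) := by
  classical
  haveI : Fintype G := Fintype.ofFinite G
  rw [cs_eq]
  unfold Commute SemiconjBy
  rw [Finset.mul_sum, Finset.sum_mul]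
  simp only [MonoidAlgebra.single_mul_single, mul_one]
  refine Finset.sum_nbij' (fun y => g * y * g⁻¹) (fun y => g⁻¹ * y * g) ?_ ?_ ?_ ?_ ?_
  · intro y hy
    rw [mem_Cl] at hy ⊢
    exact hy.trans (isConj_iff.2 ⟨g, rfl⟩)
  · intro y hy
    rw [mem_Cl] at hy ⊢
    exact hy.trans (isConj_iff.2 ⟨g⁻¹, by group⟩)
  · intro y _
    group
  · intro y _
    group
  · intro y _
    congr 1
    group

theorem comm (p : ℕ) {G : Type} [Group G] [Finite G] (x y : G) :
    Commute (cs p x) (cs p y) := by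
  classical
  haveI : Fintype G := Fintype.ofFinite G
  rw [cs_eq p y]
  exact Commute.sum_right _ _ _ (fun z _ => (central p x z).symm)

/-- number of representations -/
noncomputable def N {G : Type} [Group G] [Fintype G] [DecidableEq G] (x y w : G) : ℕ :=
  ((Cl x ×ˢ Cl y).filter (fun q => q.1 * q.2 = w)).card

theorem coeff_mul (p : ℕ) {G : Type} [Group G] [Finite G] [Fintype G] [DecidableEq G]
    (x y w : G) : (cs p x * cs p y).coeff w = (N x y w : ZMod p) := by
  rw [cs_eq p x, cs_eq p y, Finset.sum_mul_sum, ← Finset.sum_product', MonoidAlgebra.coeff_sum]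
  unfold N
  rw [Finsupp.finsetSum_apply, Finset.card_filter]
  push_cast
  refine Finset.sum_congr rfl (fun q _ => ?_)
  rw [MonoidAlgebra.single_mul_single, mul_one, MonoidAlgebra.coeff_single, Finsupp.single_apply]

end R4x

theorem exists_prime_step (p : ℕ) [Fact p.Prime] {G : Type} [Group G] [Finite G]
    (hp : Nat.card G ^ 2 < p) (x y : G) :
    ∃ a b : G, (a * x ^ p * a⁻¹) * (b * y ^ p * b⁻¹) = (x * y) ^ p := by
  classical
  haveI : Fintype G := Fintype.ofFinite G
  have hG : 0 < Nat.card G := Nat.card_pos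
  have hGp : Nat.card G < p := by nlinarith
  have hnd : ¬ p ∣ Nat.card G := fun h => absurd (Nat.le_of_dvd hG h) (by omega)
  -- the coefficient of `x y`
  have h1 : (cs p x * cs p y).coeff (x * y) ≠ 0 := by
    rw [R4x.coeff_mul]
    intro h
    rw [ZMod.natCast_eq_zero_iff] at h
    have h2 : 0 < R4x.N x y (x * y) := by
      unfold R4x.N
      rw [Finset.card_pos]
      refine ⟨(x, y), ?_⟩
      rw [Finset.mem_filter, Finset.mem_product, R4x.mem_Cl, R4x.mem_Cl]
      exact ⟨⟨IsConj.refl x, IsConj.refl y⟩, rfl⟩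
    have h3 : R4x.N x y (x * y) ≤ Nat.card G := by
      unfold R4x.N
      rw [Nat.card_eq_fintype_card, ← Finset.card_univ]
      refine Finset.card_le_card_of_injOn (fun q => q.1) (fun _ _ => Finset.mem_coe.2 (Finset.mem_univ _)) ?_
      rintro ⟨a, b⟩ h4 ⟨a', b'⟩ h5 h6
      have h4' := (Finset.mem_filter.1 (Finset.mem_coe.1 h4)).2
      have h5' := (Finset.mem_filter.1 (Finset.mem_coe.1 h5)).2
      simp only at h4' h5' h6
      subst h6
      have h7 : b = b' := mul_left_cancel (h4'.trans h5'.symm)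
      rw [h7]
    exact absurd (Nat.le_of_dvd h2 h) (by omega)
  have hcen : ∀ g : G, Commute (MonoidAlgebra.single g (1 : ZMod p)) (cs p x * cs p y) :=
    fun g => (R4x.central p x g).mul_right (R4x.central p y g)
  have h2 := frob_central p hnd (cs p x * cs p y) hcen (x * y)
  rw [(R4x.comm p x y).mul_pow, cs_pow p hnd x, cs_pow p hnd y] at h2
  rw [← h2, R4x.coeff_mul] at h1
  have h3 : 0 < R4x.N (x ^ p) (y ^ p) ((x * y) ^ p) := by
    rw [Nat.pos_iff_ne_zero]
    intro h4
    rw [h4] at h1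
    exact h1 Nat.cast_zero
  unfold R4x.N at h3
  obtain ⟨⟨a', b'⟩, h4⟩ := Finset.card_pos.1 h3
  rw [Finset.mem_filter, Finset.mem_product, R4x.mem_Cl, R4x.mem_Cl] at h4
  obtain ⟨⟨h5, h6⟩, h7⟩ := h4
  obtain ⟨a, ha⟩ := isConj_iff.1 h5
  obtain ⟨b, hb⟩ := isConj_iff.1 h6
  refine ⟨a, b, ?_⟩
  rw [ha, hb]
  exact h7

end Pool.Agent.H371.LG
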