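import Pool.Agent.H371.LG.R4

set_option autoImplicit false

namespace Pool.Agent.H371.LG

open Pool.Agent.H371.GT

theorem exists_coprime_step {G : Type} [Group G] [Finite G] (n : ℕ) (hn : n.Coprime (Nat.card G))
    (x y : G) : ∃ a b : G, (a * x ^ n * a⁻¹) * (b * y ^ n * b⁻¹) = (x * y) ^ n := by
  have : NeZero (Nat.card G) := ⟨Nat.card_pos.ne'⟩
  obtain ⟨p, hp1, hp2, hp3⟩ := Nat.forall_exists_prime_gt_and_eq_mod
    ((ZMod.isUnit_iff_coprime n (Nat.card G)).2 hn) (Nat.card G ^ 2)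
  have : Fact p.Prime := ⟨hp2⟩
  have hmod : p % Nat.card G = n % Nat.card G := (ZMod.natCast_eq_natCast_iff p n _).1 hp3
  have hpow : ∀ g : G, g ^ p = g ^ n := by
    intro g
    rw [← pow_mod_natCard g p, hmod, pow_mod_natCard]
  obtain ⟨a, b, hab⟩ := exists_prime_step p hp1 x y
  refine ⟨a, b, ?_⟩
  rw [hpow, hpow, hpow] at hab
  exact hab

end Pool.Agent.H371.LG
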