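import Pool.Agent.H371.LG.R5

set_option autoImplicit false

namespace Pool.Agent.H371.LG

open Pool.Agent.H371.GT

namespace R6x

theorem exists_rep {G : Type} [Group G] (x y : G) (hg : Subgroup.closure {x, y} = ⊤) (g : G) :
    ∃ i j : ℤ, Abelianization.of g = (Abelianization.of y) ^ i * (Abelianization.of x) ^ j := by
  have hgm : g ∈ Subgroup.closure {x, y} := by
    rw [hg]
    exact Subgroup.mem_top g
  refine Subgroup.closure_induction
    (p := fun g _ => ∃ i j : ℤ, Abelianization.of g =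
      (Abelianization.of y) ^ i * (Abelianization.of x) ^ j) ?_ ?_ ?_ ?_ hgm
  · intro z hz
    rcases hz with rfl | hz
    · exact ⟨0, 1, by rw [zpow_zero, zpow_one, one_mul]⟩
    · rw [Set.mem_singleton_iff] at hz
      subst hz
      exact ⟨1, 0, by rw [zpow_zero, zpow_one, mul_one]⟩
  · exact ⟨0, 0, by rw [zpow_zero, zpow_zero, one_mul, map_one]⟩
  · rintro u v _ _ ⟨i, j, h1⟩ ⟨i', j', h2⟩
    refine ⟨i + i', j + j', ?_⟩
    rw [map_mul, h1, h2, zpow_add, zpow_add, mul_mul_mul_comm]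
  · rintro u _ ⟨i, j, h1⟩
    refine ⟨-i, -j, ?_⟩
    rw [map_inv, h1, zpow_neg, zpow_neg, mul_inv]

end R6x

theorem exists_commutator_step {G : Type} [Group G] [Finite G] (n : ℕ)
    (hn : n.Coprime (Nat.card G)) (x y : G) (hg : Subgroup.closure {x, y} = ⊤) :
    ∃ f ∈ commutator G, ∃ c : G, x ^ n * (f⁻¹ * y ^ n * f) = c * (x * y) ^ n * c⁻¹ := by
  obtain ⟨a, b, hab⟩ := exists_coprime_step n hn x y
  obtain ⟨i, j, hij⟩ := R6x.exists_rep x y hg (b⁻¹ * a)
  refine ⟨y ^ (-i) * (b⁻¹ * a) * x ^ (-j), ?_, x ^ j * a⁻¹, ?_⟩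
  · rw [← Abelianization.ker_of, MonoidHom.mem_ker, map_mul, map_mul, hij, map_zpow, map_zpow,
      zpow_neg, zpow_neg, inv_mul_cancel_left, mul_inv_cancel]
  · have h1 : y ^ i * y ^ n * y ^ (-i) = y ^ n := by
      rw [← zpow_natCast, ← zpow_add, ← zpow_add]
      congr 1
      ring
    have h2 : x ^ (-j) * x ^ n * x ^ j = x ^ n := by
      rw [← zpow_natCast, ← zpow_add, ← zpow_add]
      congr 1
      ring
    have h3 : (y ^ (-i) * (b⁻¹ * a) * x ^ (-j))⁻¹ * y ^ n * (y ^ (-i) * (b⁻¹ * a) * x ^ (-j)) =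
        x ^ j * (a⁻¹ * b) * (y ^ i * y ^ n * y ^ (-i)) * (b⁻¹ * a) * x ^ (-j) := by
      simp only [mul_inv_rev, zpow_neg, inv_inv, mul_assoc]
    rw [h3, h1, ← hab]
    have h4 : x ^ n * (x ^ j * (a⁻¹ * b) * y ^ n * (b⁻¹ * a) * x ^ (-j)) =
        x ^ j * (x ^ (-j) * x ^ n * x ^ j) * (a⁻¹ * b) * y ^ n * (b⁻¹ * a) * x ^ (-j) := by
      simp only [zpow_neg, mul_assoc, mul_inv_cancel_left]
    rw [h4, h2]
    simp only [mul_inv_rev, zpow_neg, inv_inv, mul_assoc, inv_mul_cancel_left]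

end Pool.Agent.H371.LG
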