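import Pool.Agent.H371.LG.Defs
import Pool.Agent.H371.GT.F11
import Pool.Agent.H371.GT.G1
import Pool.Agent.H371.GT.Z1

set_option autoImplicit false

namespace Pool.Agent.H371.LG

open Pool.Agent.H371.GT

/-- an endomorphism of finite order as an automorphism -/
theorem exists_mulAut (φ : F2 →ₜ* F2) (n : ℕ) (hn : 0 < n) (h : ∀ a, (⇑φ)^[n] a = a) :
    ∃ t : MulAut F2, (∀ a, t a = φ a) ∧ Continuous t ∧ t ^ n = 1 := by
  have hinj : Function.Injective φ := by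
    obtain ⟨k, rfl⟩ : ∃ k, n = k + 1 := ⟨n - 1, by omega⟩
    intro a b hab
    have h1 := h a
    have h2 := h b
    rw [Function.iterate_succ_apply] at h1 h2
    rw [← h1, ← h2, hab]
  have hsurj : Function.Surjective φ := by
    obtain ⟨k, rfl⟩ : ∃ k, n = k + 1 := ⟨n - 1, by omega⟩
    intro a
    refine ⟨(⇑φ)^[k] a, ?_⟩
    rw [← Function.iterate_succ_apply' (⇑φ)]
    exact h a
  let t : MulAut F2 := MulEquiv.ofBijective φ.toMonoidHom ⟨hinj, hsurj⟩
  have ht : ∀ a, t a = φ a := fun a => rfl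
  refine ⟨t, ht, φ.continuous_toFun, ?_⟩
  have hk : ∀ (k : ℕ) (a : F2), (t ^ k) a = (⇑φ)^[k] a := by
    intro k
    induction k with
    | zero => intro a; rfl
    | succ k ih =>
      intro a
      rw [pow_succ', MulAut.mul_apply, ih, Function.iterate_succ_apply', ht]
  ext a
  rw [hk n a, h a]
  rfl

theorem general (l : Zhat) (φ : F2 →ₜ* F2) (hφ : Hex l φ) (n : ℕ) (hn : 0 < n)
    (h : ∀ a, (⇑φ)^[n] a = a) :
    (∀ a, φ a = a) ∨ ((∀ a, φ (φ a) = a) ∧ l * l = 1 ∧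
      ∀ k : ℕ, res l ⟨2 ^ k, pow_pos two_pos k⟩ + 1 ≡ 0 [MOD 2 ^ k]) := by
  obtain ⟨t, ht, htc, htn⟩ := exists_mulAut φ n hn h
  have hex : Hex l t := by
    obtain ⟨h1, ⟨g, h2⟩, g', h3⟩ := hφ
    exact ⟨(ht X).trans h1, ⟨g, (ht Y).trans h2⟩, g', (ht Z).trans h3⟩
  rcases torsion htc hex hn htn with h1 | ⟨h1, h2, h3⟩
  · left
    intro a
    rw [← ht, h1]
    rfl
  · right
    refine ⟨fun a => ?_, h2, h3⟩
    have h4 := DFunLike.congr_fun h1 a
    rw [pow_two, MulAut.mul_apply, ht, ht] at h4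
    exact h4


end Pool.Agent.H371.LG
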